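import Mathlib

set_option autoImplicit false

open Set Filter Topology MeasureTheory Complex ComplexConjugate

namespace Pool.Agent.H735R2.Osel

/-- A billiard table without corners: a compact set `Q` of the plane (identified with `ℂ`), which is
the closure of its connected interior and whose boundary consists of `m` pairwise disjoint simple
closed `C^∞` curves `γ i`, parametrised by arclength with period `L i`, with `Q` on their left: the
inward unit normal at `γ i r` is `I * (γ i)' r`. -/
structure Table where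
  /-- the table -/
  Q : Set ℂ
  /-- the number of boundary curves -/
  m : ℕ
  /-- their lengths -/
  L : Fin m → ℝ
  /-- their arclength parametrisations -/
  γ : Fin m → ℝ → ℂ
  compact : IsCompact Q
  regular : closure (interior Q) = Q
  connected : IsConnected (interior Q)
  L_pos : ∀ i, 0 < L i
  smooth : ∀ i, ContDiff ℝ ((⊤ : ℕ∞) : WithTop ℕ∞) (γ i)
  unit : ∀ i s, ‖deriv (γ i) s‖ = 1
  closed : ∀ i s, γ i (s + L i) = γ i s
  simple : ∀ i j s t, γ i s = γ j t → i = j ∧ ∃ k : ℤ, t = s + k * L i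
  boundary : frontier Q = ⋃ i, range (γ i)
  inward : ∀ i s, ∀ᶠ ε : ℝ in 𝓝[>] 0, γ i s + (ε : ℂ) * (I * deriv (γ i) s) ∈ interior Q

namespace Table

variable (B : Table)

/-- The inward unit normal at the boundary point `γ i r`. -/
noncomputable def normal (i : Fin B.m) (r : ℝ) : ℂ := I * deriv (B.γ i) r

/-- The state (boundary point, unit vector) with coordinates `(r, φ)` on the `i`-th boundary curve:
the vector makes the angle `φ` with the inward normal. -/
noncomputable def coord (i : Fin B.m) (p : ℝ × ℝ) : ℂ × ℂ :=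
  (B.γ i p.1, (Real.cos p.2 : ℂ) * B.normal i p.1 + (Real.sin p.2 : ℂ) * deriv (B.γ i) p.1)

/-- One step of the billiard: the straight segment from `x.1` in the direction `x.2` runs inside the
table up to the boundary point `y.1 = γ i r`, and `y.2` is the mirror image of `x.2` in the tangent
line of the boundary there. -/
def Step (x y : ℂ × ℂ) : Prop :=
  ∃ t : ℝ, 0 < t ∧ y.1 = x.1 + (t : ℂ) * x.2 ∧
    (∀ s ∈ Ioo (0 : ℝ) t, x.1 + (s : ℂ) * x.2 ∈ interior B.Q) ∧
    ∃ (i : Fin B.m) (r : ℝ), y.1 = B.γ i r ∧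
      y.2 = x.2 - (2 * (x.2 * conj (B.normal i r)).re : ℝ) * B.normal i r

open Classical in
/-- The billiard map (the identity where it is not defined). -/
noncomputable def T (x : ℂ × ℂ) : ℂ × ℂ := if h : ∃ y, B.Step x y then h.choose else x

/-- The states which are not tangential: `-π/2 < φ < π/2`. -/
def Transversal : Set (ℂ × ℂ) :=
  {x | ∃ (i : Fin B.m) (p : ℝ × ℝ), |p.2| < Real.pi / 2 ∧ x = B.coord i p}

/-- The states whose entire (two-sided) orbit is defined and has no tangential collision. -/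
def Nonsingular : Set (ℂ × ℂ) :=
  {x | ∃ o : ℤ → ℂ × ℂ, o 0 = x ∧ ∀ k, o k ∈ B.Transversal ∧ B.Step (o k) (o (k + 1))}

/-- The invariant probability measures of the billiard map. -/
structure InvariantProb (μ : Measure (ℂ × ℂ)) : Prop where
  prob : μ univ = 1
  nonsing : μ (B.Nonsingular)ᶜ = 0
  inv : μ.map B.T = μ

/-- `μ` gives no mass to the periodic points. -/
def NonPeriodic (μ : Measure (ℂ × ℂ)) : Prop :=
  μ {x | ∃ n : ℕ, 0 < n ∧ B.T^[n] x = x} = 0

/-- `A` is the derivative of the billiard map at the non-tangential state `x` in the coordinates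
`(r, φ)`. -/
def IsDeriv (x : ℂ × ℂ) (A : (ℝ × ℝ) →L[ℝ] (ℝ × ℝ)) : Prop :=
  ∃ (i j : Fin B.m) (p : ℝ × ℝ) (F : ℝ × ℝ → ℝ × ℝ), |p.2| < Real.pi / 2 ∧ B.coord i p = x ∧
    HasFDerivAt F A p ∧ ∀ᶠ p' in 𝓝 p, |(F p').2| < Real.pi / 2 ∧ B.T (B.coord i p') = B.coord j (F p')

/-- `A` is the derivative of the inverse of the billiard map at the non-tangential state `x` in the
coordinates `(r, φ)`. -/
def IsDerivInv (x : ℂ × ℂ) (A : (ℝ × ℝ) →L[ℝ] (ℝ × ℝ)) : Prop :=
  ∃ (i j : Fin B.m) (p : ℝ × ℝ) (G : ℝ × ℝ → ℝ × ℝ), |p.2| < Real.pi / 2 ∧ B.coord i p = x ∧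
    HasFDerivAt G A p ∧ ∀ᶠ p' in 𝓝 p, |(G p').2| < Real.pi / 2 ∧ B.T (B.coord j (G p')) = B.coord i p'

open Classical in
/-- The norm of the derivative of the billiard map at `x` in the coordinates `(r, φ)`. -/
noncomputable def normDT (x : ℂ × ℂ) : ℝ := if h : ∃ A, B.IsDeriv x A then ‖h.choose‖ else 0

open Classical in
/-- The norm of the derivative of the inverse billiard map at `x` in the coordinates `(r, φ)`. -/
noncomputable def normDTinv (x : ℂ × ℂ) : ℝ := if h : ∃ A, B.IsDerivInv x A then ‖h.choose‖ else 0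

/-- The Oseledets integrability condition. -/
def OseledetsIntegrable (μ : Measure (ℂ × ℂ)) : Prop :=
  (∫⁻ x, ENNReal.ofReal (max 0 (Real.log (B.normDT x))) ∂μ) < ⊤ ∧
    (∫⁻ x, ENNReal.ofReal (max 0 (Real.log (B.normDTinv x))) ∂μ) < ⊤

/-- The natural smooth measure `cos φ dr dφ` on the states. -/
noncomputable def liouville : Measure (ℂ × ℂ) :=
  Measure.sum fun i : Fin B.m =>
    (((volume : Measure (ℝ × ℝ)).withDensity fun p => ENNReal.ofReal (Real.cos p.2)).restrict
      (Ico 0 (B.L i) ×ˢ Ioo (-(Real.pi / 2)) (Real.pi / 2))).map (B.coord i)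

end Table

end Pool.Agent.H735R2.Osel
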