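import Mathlib
import Pool.Agent.H735R2.OselDefs

set_option autoImplicit false

open Set Filter Topology MeasureTheory Complex ComplexConjugate

namespace Pool.Agent.H735R2.Osel

/-- the unit vector of angle `θ` -/
noncomputable def ex (θ : ℝ) : ℂ := Complex.exp ((θ : ℂ) * I)

theorem norm_ex (θ : ℝ) : ‖ex θ‖ = 1 := Complex.norm_exp_ofReal_mul_I θ

theorem ex_add (a b : ℝ) : ex (a + b) = ex a * ex b := by
  unfold ex
  rw [← Complex.exp_add]
  congr 1
  push_cast
  ring

theorem ex_ne (θ : ℝ) : ex θ ≠ 0 := Complex.exp_ne_zero _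

theorem ex_zero : ex 0 = 1 := by simp [ex]

theorem ex_neg (θ : ℝ) : ex (-θ) = conj (ex θ) := by
  unfold ex
  rw [← Complex.exp_conj]
  congr 1
  simp

theorem ex_eq (θ : ℝ) : ex θ = (Real.cos θ : ℂ) + (Real.sin θ : ℂ) * I := by
  unfold ex
  rw [Complex.exp_mul_I]
  simp

theorem hasDerivAt_ex (θ : ℝ) : HasDerivAt ex (I * ex θ) θ := by
  have h1 : HasDerivAt (fun x : ℝ => (x : ℂ) * I) (1 * I) θ :=
    (Complex.ofRealCLM.hasDerivAt (x := θ)).mul_const I
  have h2 := h1.cexp
  unfold ex
  convert h2 using 1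
  ring

theorem contDiff_ex : ContDiff ℝ ((⊤ : ℕ∞) : WithTop ℕ∞) ex := by
  unfold ex
  exact (Complex.ofRealCLM.contDiff.mul contDiff_const).cexp

theorem continuous_ex : Continuous ex := contDiff_ex.continuous

theorem ex_eq_iff (a b : ℝ) : ex a = ex b ↔ ∃ k : ℤ, a = b + k * (2 * Real.pi) := by
  unfold ex
  rw [Complex.exp_eq_exp_iff_exists_int]
  constructor
  · rintro ⟨k, hk⟩
    refine ⟨k, ?_⟩
    have h1 : ((a : ℂ) - (b + k * (2 * Real.pi))) * I = 0 := by
      linear_combination hk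
    have h2 : ((a : ℂ) - (b + k * (2 * Real.pi))) = 0 := by
      rcases mul_eq_zero.1 h1 with h | h
      · exact h
      · exact absurd h I_ne_zero
    have h3 : ((a - (b + k * (2 * Real.pi)) : ℝ) : ℂ) = 0 := by
      push_cast
      exact h2
    have h4 := Complex.ofReal_eq_zero.1 h3
    linarith
  · rintro ⟨k, hk⟩
    refine ⟨k, ?_⟩
    rw [hk]
    push_cast
    ring

/-- the closed annulus `1 ≤ |z| ≤ 2` -/
def QA : Set ℂ := {z | 1 ≤ ‖z‖ ∧ ‖z‖ ≤ 2}

theorem interior_QA : interior QA = {z : ℂ | 1 < ‖z‖ ∧ ‖z‖ < 2} := by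
  have h1 : QA = Metric.closedBall (0 : ℂ) 2 ∩ (Metric.ball (0 : ℂ) 1)ᶜ := by
    ext z
    simp [QA, and_comm]
  rw [h1, interior_inter, interior_closedBall _ (by norm_num), interior_compl,
    closure_ball _ (by norm_num)]
  ext z
  simp [and_comm]

theorem isClosed_QA : IsClosed QA :=
  (isClosed_le continuous_const continuous_norm).inter
    (isClosed_le continuous_norm continuous_const)

theorem frontier_QA : frontier QA = {z : ℂ | ‖z‖ = 1 ∨ ‖z‖ = 2} := by
  rw [isClosed_QA.frontier_eq, interior_QA]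
  ext z
  simp only [QA, Set.mem_sdiff, Set.mem_ofPred_eq]
  constructor
  · rintro ⟨⟨h1, h2⟩, h3⟩
    by_contra h4
    push Not at h4
    exact h3 ⟨lt_of_le_of_ne h1 (Ne.symm h4.1), lt_of_le_of_ne h2 h4.2⟩
  · rintro (h | h) <;> rw [h] <;> norm_num

theorem closure_interior_QA : closure (interior QA) = QA := by
  apply subset_antisymm
  · exact isClosed_QA.closure_subset_iff.2 interior_subset
  · intro z hz
    have hz0 : 0 < ‖z‖ := lt_of_lt_of_le one_pos hz.1
    have ht : Tendsto (fun ε : ℝ => (((1 - ε) + ε * (3 / 2) / ‖z‖ : ℝ) : ℂ) * z) (𝓝[>] 0)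
        (𝓝 z) := by
      have h1 : Tendsto (fun ε : ℝ => (((1 - ε) + ε * (3 / 2) / ‖z‖ : ℝ) : ℂ) * z) (𝓝 0)
          (𝓝 ((((1 - 0) + 0 * (3 / 2) / ‖z‖ : ℝ) : ℂ) * z)) := by
        apply Continuous.tendsto
        fun_prop
      have h2 : ((((1 - 0) + 0 * (3 / 2) / ‖z‖ : ℝ) : ℂ) * z) = z := by
        norm_num
      rw [h2] at h1
      exact h1.mono_left nhdsWithin_le_nhds
    apply mem_closure_of_tendsto ht
    have h3 : ∀ᶠ ε : ℝ in 𝓝[>] 0, ε ∈ Ioo (0 : ℝ) 1 :=
      Ioo_mem_nhdsGT (by norm_num)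
    filter_upwards [h3] with ε hε
    rw [interior_QA]
    have h4 : ‖(((1 - ε) + ε * (3 / 2) / ‖z‖ : ℝ) : ℂ) * z‖ = (1 - ε) * ‖z‖ + ε * (3 / 2) := by
      rw [norm_mul, Complex.norm_real, Real.norm_eq_abs, abs_of_nonneg]
      · field_simp
      · have : 0 ≤ ε * (3 / 2) / ‖z‖ := by
          have := hε.1
          positivity
        linarith [hε.2]
    show 1 < _ ∧ _ < 2
    rw [h4]
    obtain ⟨h5, h6⟩ := hε
    obtain ⟨h7, h8⟩ := hz
    constructor <;> nlinarith

theorem isConnected_interior_QA : IsConnected (interior QA) := by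
  have h1 : interior QA = (fun p : ℝ × ℝ => (p.1 : ℂ) * ex p.2) '' (Ioo 1 2 ×ˢ univ) := by
    rw [interior_QA]
    ext z
    simp only [Set.mem_ofPred_eq, mem_image, mem_prod, mem_univ, and_true, Prod.exists]
    constructor
    · rintro ⟨h1, h2⟩
      refine ⟨‖z‖, arg z, ⟨h1, h2⟩, ?_⟩
      exact Complex.norm_mul_exp_arg_mul_I z
    · rintro ⟨r, θ, ⟨h1, h2⟩, h3⟩
      have : ‖z‖ = r := by
        rw [← h3, norm_mul, norm_ex, Complex.norm_real, Real.norm_eq_abs,
          abs_of_pos (by linarith)]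
        ring
      rw [this]
      exact ⟨h1, h2⟩
  rw [h1]
  apply IsConnected.image
  · refine IsConnected.prod ?_ isConnected_univ
    exact isConnected_Ioo (by norm_num)
  · apply Continuous.continuousOn
    have := continuous_ex
    fun_prop

/-- the two boundary curves -/
noncomputable def gA (i : Fin 2) (s : ℝ) : ℂ :=
  if i = 0 then ex (-s) else 2 * ex (s / 2)

theorem gA0 (s : ℝ) : gA 0 s = ex (-s) := by simp [gA]

theorem gA1 (s : ℝ) : gA 1 s = 2 * ex (s / 2) := by simp [gA]

theorem hasDerivAt_gA0 (s : ℝ) : HasDerivAt (gA 0) (-(I * ex (-s))) s := by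
  have h1 : HasDerivAt (fun x : ℝ => ex (-x)) ((-1 : ℝ) • (I * ex (-s))) s :=
    (hasDerivAt_ex (-s)).scomp s (hasDerivAt_neg s)
  have h2 : gA 0 = fun x : ℝ => ex (-x) := by
    funext x
    exact gA0 x
  rw [h2]
  convert h1 using 1
  simp

theorem hasDerivAt_gA1 (s : ℝ) : HasDerivAt (gA 1) (I * ex (s / 2)) s := by
  have h0 : HasDerivAt (fun x : ℝ => x / 2) (1 / 2) s := (hasDerivAt_id s).div_const 2
  have h1 : HasDerivAt (fun x : ℝ => 2 * ex (x / 2)) (2 * ((1 / 2 : ℝ) • (I * ex (s / 2)))) s :=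
    ((hasDerivAt_ex (s / 2)).scomp s h0).const_mul 2
  have h2 : gA 1 = fun x : ℝ => 2 * ex (x / 2) := by
    funext x
    exact gA1 x
  rw [h2]
  convert h1 using 1
  rw [Complex.real_smul]
  push_cast
  ring

/-- The table between two concentric circles of radii `1` and `2`. -/
noncomputable def ann : Table where
  Q := QA
  m := 2
  L := fun i => if i = 0 then 2 * Real.pi else 4 * Real.pi
  γ := gA
  compact := by
    apply Metric.isCompact_of_isClosed_isBounded isClosed_QA
    apply (Metric.isBounded_closedBall (x := (0 : ℂ)) (r := 2)).subset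
    intro z hz
    simpa using hz.2
  regular := closure_interior_QA
  connected := isConnected_interior_QA
  L_pos := by
    intro i
    have := Real.pi_pos
    fin_cases i <;> simp <;> linarith
  smooth := by
    intro i
    fin_cases i
    · have h2 : gA 0 = fun x : ℝ => ex (-x) := by
        funext x
        exact gA0 x
      show ContDiff ℝ _ (gA 0)
      rw [h2]
      exact contDiff_ex.comp contDiff_neg
    · have h2 : gA 1 = fun x : ℝ => 2 * ex (x / 2) := by
        funext x
        exact gA1 x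
      show ContDiff ℝ _ (gA 1)
      rw [h2]
      exact contDiff_const.mul (contDiff_ex.comp (contDiff_id.div_const 2))
  unit := by
    intro i s
    fin_cases i
    · show ‖deriv (gA 0) s‖ = 1
      rw [(hasDerivAt_gA0 s).deriv]
      simp [norm_ex]
    · show ‖deriv (gA 1) s‖ = 1
      rw [(hasDerivAt_gA1 s).deriv]
      simp [norm_ex]
  closed := by
    intro i s
    fin_cases i
    · show gA 0 (s + 2 * Real.pi) = gA 0 s
      rw [gA0, gA0, ex_eq_iff]
      exact ⟨-1, by push_cast; ring⟩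
    · show gA 1 (s + 4 * Real.pi) = gA 1 s
      rw [gA1, gA1]
      congr 1
      rw [ex_eq_iff]
      exact ⟨1, by push_cast; ring⟩
  simple := by
    intro i j s t h
    have hn : ∀ (i : Fin 2) (s : ℝ), ‖gA i s‖ = if i = 0 then 1 else 2 := by
      intro i s
      fin_cases i
      · simp [gA, norm_ex]
      · simp [gA, norm_ex]
    have h1 := hn i s
    rw [h, hn j t] at h1
    fin_cases i <;> fin_cases j
    · refine ⟨rfl, ?_⟩
      have h2 : gA 0 s = gA 0 t := h
      rw [gA0, gA0, ex_eq_iff] at h2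
      obtain ⟨k, hk⟩ := h2
      refine ⟨k, ?_⟩
      show t = s + k * (2 * Real.pi)
      linarith
    · simp at h1
    · simp at h1
    · refine ⟨rfl, ?_⟩
      have h2 : gA 1 s = gA 1 t := h
      rw [gA1, gA1] at h2
      have h3 := mul_left_cancel₀ (by norm_num : (2 : ℂ) ≠ 0) h2
      rw [ex_eq_iff] at h3
      obtain ⟨k, hk⟩ := h3
      refine ⟨-k, ?_⟩
      show t = s + ((-k : ℤ) : ℝ) * (4 * Real.pi)
      push_cast
      linarith
  boundary := by
    rw [frontier_QA]
    ext z
    simp only [Set.mem_ofPred_eq, mem_iUnion, mem_range]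
    constructor
    · rintro (h | h)
      · refine ⟨0, -arg z, ?_⟩
        rw [gA0, neg_neg]
        have := Complex.norm_mul_exp_arg_mul_I z
        rw [h] at this
        simpa [ex] using this
      · refine ⟨1, 2 * arg z, ?_⟩
        rw [gA1]
        have := Complex.norm_mul_exp_arg_mul_I z
        rw [h] at this
        have h2 : 2 * arg z / 2 = arg z := by ring
        rw [h2]
        simpa [ex] using this
    · rintro ⟨i, s, h⟩
      rw [← h]
      fin_cases i
      · left
        simp [gA, norm_ex]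
      · right
        simp [gA, norm_ex]
  inward := by
    intro i s
    have h3 : ∀ᶠ ε : ℝ in 𝓝[>] 0, ε ∈ Ioo (0 : ℝ) 1 :=
      Ioo_mem_nhdsGT (by norm_num)
    filter_upwards [h3] with ε hε
    rw [interior_QA]
    fin_cases i
    · show gA 0 s + (ε : ℂ) * (I * deriv (gA 0) s) ∈ _
      rw [(hasDerivAt_gA0 s).deriv, gA0]
      have h4 : ex (-s) + (ε : ℂ) * (I * (-(I * ex (-s)))) = ((1 + ε : ℝ) : ℂ) * ex (-s) := by
        have := I_mul_I
        push_cast
        linear_combination (-(ε : ℂ) * ex (-s)) * this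
      rw [h4]
      show 1 < _ ∧ _ < 2
      rw [norm_mul, norm_ex, Complex.norm_real, Real.norm_eq_abs, abs_of_pos (by linarith [hε.1])]
      constructor <;> linarith [hε.1, hε.2]
    · show gA 1 s + (ε : ℂ) * (I * deriv (gA 1) s) ∈ _
      rw [(hasDerivAt_gA1 s).deriv, gA1]
      have h4 : 2 * ex (s / 2) + (ε : ℂ) * (I * (I * ex (s / 2))) =
          ((2 - ε : ℝ) : ℂ) * ex (s / 2) := by
        have := I_mul_I
        push_cast
        linear_combination ((ε : ℂ) * ex (s / 2)) * this
      rw [h4]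
      show 1 < _ ∧ _ < 2
      rw [norm_mul, norm_ex, Complex.norm_real, Real.norm_eq_abs, abs_of_pos (by linarith [hε.2])]
      constructor <;> linarith [hε.1, hε.2]

end Pool.Agent.H735R2.Osel
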