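import Mathlib
import Pool.Agent.H735R2.OselAnn

set_option autoImplicit false

open Set Filter Topology MeasureTheory Complex ComplexConjugate

namespace Pool.Agent.H735R2.Osel

namespace Table

variable (B : Table)

theorem deriv_periodic (i : Fin B.m) (s : ℝ) (k : ℤ) :
    B.γ i (s + k * B.L i) = B.γ i s ∧ deriv (B.γ i) (s + k * B.L i) = deriv (B.γ i) s := by
  have h1 : Function.Periodic (B.γ i) (B.L i) := B.closed i
  have h2 : Function.Periodic (B.γ i) (k * B.L i) := h1.int_mul k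
  refine ⟨h2 s, ?_⟩
  have h3 : (fun x => B.γ i (x + k * B.L i)) = B.γ i := funext h2
  have h4 := deriv_comp_add_const (f := B.γ i) (k * B.L i) s
  rw [← h4, h3]

theorem normal_unique {i j : Fin B.m} {r s : ℝ} (h : B.γ i r = B.γ j s) :
    B.normal i r = B.normal j s := by
  obtain ⟨h1, k, hk⟩ := B.simple i j r s h
  subst h1
  unfold normal
  rw [hk, (B.deriv_periodic i r k).2]

theorem step_unique {x y z : ℂ × ℂ} (hy : B.Step x y) (hz : B.Step x z) : y = z := by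
  obtain ⟨t, ht, h1, h2, i, r, h3, h4⟩ := hy
  obtain ⟨t', ht', h1', h2', i', r', h3', h4'⟩ := hz
  have hfr : ∀ (j : Fin B.m) (s : ℝ), B.γ j s ∉ interior B.Q := by
    intro j s hs
    have h5 : B.γ j s ∈ frontier B.Q := by
      rw [B.boundary]
      exact mem_iUnion.2 ⟨j, s, rfl⟩
    exact h5.2 hs
  have htt : t = t' := by
    rcases lt_trichotomy t t' with h | h | h
    · exfalso
      have := h2' t ⟨ht, h⟩
      rw [← h1, h3] at this
      exact hfr _ _ this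
    · exact h
    · exfalso
      have := h2 t' ⟨ht', h⟩
      rw [← h1', h3'] at this
      exact hfr _ _ this
  subst htt
  have h6 : y.1 = z.1 := by rw [h1, h1']
  have h7 : B.normal i r = B.normal i' r' := B.normal_unique (by rw [← h3, ← h3', h6])
  have h8 : y.2 = z.2 := by rw [h4, h4', h7]
  exact Prod.ext h6 h8

theorem T_eq {x y : ℂ × ℂ} (h : B.Step x y) : B.T x = y := by
  have h1 : ∃ y, B.Step x y := ⟨y, h⟩
  unfold T
  rw [dif_pos h1]
  exact B.step_unique h1.choose_spec h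

end Table

/-- state on the inner circle -/
noncomputable def In (θ φ : ℝ) : ℂ × ℂ := (ex θ, ex (θ + φ))

/-- state on the outer circle -/
noncomputable def Out (θ ψ : ℝ) : ℂ × ℂ := (2 * ex θ, -ex (θ - ψ))

theorem coord0 (p : ℝ × ℝ) : ann.coord (0 : Fin 2) p = In (-p.1) (-p.2) := by
  show (gA 0 p.1, (Real.cos p.2 : ℂ) * (I * deriv (gA 0) p.1) + (Real.sin p.2 : ℂ) *
    deriv (gA 0) p.1) = _
  rw [(hasDerivAt_gA0 p.1).deriv, gA0]
  unfold In
  rw [ex_add, ex_eq (-p.2), Real.cos_neg, Real.sin_neg]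
  have := I_mul_I
  refine Prod.ext rfl ?_
  show _ = _
  rw [Complex.ofReal_neg]
  linear_combination (-(Real.cos p.2 : ℂ) * ex (-p.1)) * this

theorem coord1 (p : ℝ × ℝ) : ann.coord (1 : Fin 2) p = Out (p.1 / 2) p.2 := by
  show (gA 1 p.1, (Real.cos p.2 : ℂ) * (I * deriv (gA 1) p.1) + (Real.sin p.2 : ℂ) *
    deriv (gA 1) p.1) = _
  rw [(hasDerivAt_gA1 p.1).deriv, gA1]
  unfold Out
  rw [sub_eq_add_neg, ex_add, ex_eq (-p.2), Real.cos_neg, Real.sin_neg]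
  have := I_mul_I
  refine Prod.ext rfl ?_
  show _ = _
  rw [Complex.ofReal_neg]
  linear_combination ((Real.cos p.2 : ℂ) * ex (p.1 / 2)) * this

theorem normSq_aux (a b : ℝ) (θ φ : ℝ) :
    ‖(a : ℂ) * ex θ + (b : ℂ) * ex (θ + φ)‖ ^ 2 = a ^ 2 + 2 * a * b * Real.cos φ + b ^ 2 := by
  have h1 : (a : ℂ) * ex θ + (b : ℂ) * ex (θ + φ) = ex θ * ((a : ℂ) + (b : ℂ) * ex φ) := by
    rw [ex_add]
    ring
  rw [h1, norm_mul, norm_ex, one_mul, ex_eq, ← Complex.normSq_eq_norm_sq]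
  have h2 : (a : ℂ) + (b : ℂ) * ((Real.cos φ : ℂ) + (Real.sin φ : ℂ) * I) =
      ((a + b * Real.cos φ : ℝ) : ℂ) + ((b * Real.sin φ : ℝ) : ℂ) * I := by
    push_cast
    ring
  rw [h2, Complex.normSq_add_mul_I]
  have := Real.sin_sq_add_cos_sq φ
  linear_combination (b ^ 2) * this

theorem mem_int_of_sq {z : ℂ} (h1 : 1 < ‖z‖ ^ 2) (h2 : ‖z‖ ^ 2 < 4) : z ∈ interior ann.Q := by
  show z ∈ interior QA
  rw [interior_QA]
  have := norm_nonneg z
  constructor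
  · nlinarith
  · nlinarith

theorem cos_ineq {φ ψ : ℝ} (hφ : |φ| < Real.pi / 2) (hψ : |ψ| < Real.pi / 2)
    (h : Real.sin φ = 2 * Real.sin ψ) :
    0 < Real.cos φ ∧ 0 < Real.cos ψ ∧ Real.cos φ < 2 * Real.cos ψ ∧
      4 * Real.cos ψ ^ 2 = 3 + Real.cos φ ^ 2 := by
  have h1 := Real.cos_pos_of_mem_Ioo (abs_lt.1 hφ)
  have h2 := Real.cos_pos_of_mem_Ioo (abs_lt.1 hψ)
  have h3 := Real.sin_sq_add_cos_sq φ
  have h4 := Real.sin_sq_add_cos_sq ψ
  have h5 : 4 * Real.cos ψ ^ 2 = 3 + Real.cos φ ^ 2 := by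
    rw [h] at h3
    nlinarith
  refine ⟨h1, h2, ?_, h5⟩
  nlinarith

/-- from the inner to the outer circle -/
theorem step_in {θ φ ψ : ℝ} (hφ : |φ| < Real.pi / 2) (hψ : |ψ| < Real.pi / 2)
    (h : Real.sin φ = 2 * Real.sin ψ) : ann.Step (In θ φ) (Out (θ + (φ - ψ)) ψ) := by
  obtain ⟨h1, h2, h3, h4⟩ := cos_ineq hφ hψ h
  refine ⟨2 * Real.cos ψ - Real.cos φ, by linarith, ?_, ?_, (1 : Fin 2), 2 * (θ + (φ - ψ)), ?_, ?_⟩
  · show 2 * ex (θ + (φ - ψ)) = ex θ + ((2 * Real.cos ψ - Real.cos φ : ℝ) : ℂ) * ex (θ + φ)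
    have e1 : ex θ = ex (θ + φ) * ex (-φ) := by
      rw [← ex_add]
      congr 1
      ring
    have e2 : ex (θ + (φ - ψ)) = ex (θ + φ) * ex (-ψ) := by
      rw [← ex_add]
      congr 1
      ring
    rw [e1, e2, ex_eq (-φ), ex_eq (-ψ), Real.cos_neg, Real.cos_neg, Real.sin_neg, Real.sin_neg, h]
    push_cast
    ring
  · intro s hs
    show ex θ + (s : ℂ) * ex (θ + φ) ∈ _
    have e1 := normSq_aux 1 s θ φ
    have e2 : ((1 : ℝ) : ℂ) * ex θ + (s : ℂ) * ex (θ + φ) = ex θ + (s : ℂ) * ex (θ + φ) := by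
      push_cast
      ring
    rw [e2] at e1
    obtain ⟨hs1, hs2⟩ := hs
    apply mem_int_of_sq
    · rw [e1]
      nlinarith [mul_pos hs1 h1, mul_pos hs1 hs1]
    · rw [e1]
      nlinarith [mul_pos (sub_pos.2 hs2) (by linarith : 0 < s + 2 * Real.cos ψ + Real.cos φ)]
  · show 2 * ex (θ + (φ - ψ)) = gA 1 (2 * (θ + (φ - ψ)))
    rw [gA1]
    congr 2
    ring
  · have hn : ann.normal (1 : Fin 2) (2 * (θ + (φ - ψ))) = -ex (θ + (φ - ψ)) := by
      show I * deriv (gA 1) (2 * (θ + (φ - ψ))) = _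
      rw [(hasDerivAt_gA1 _).deriv]
      have e1 : 2 * (θ + (φ - ψ)) / 2 = θ + (φ - ψ) := by ring
      rw [e1, ← mul_assoc, I_mul_I]
      ring
    rw [hn]
    show -ex (θ + (φ - ψ) - ψ) = ex (θ + φ) - ((2 * (ex (θ + φ) *
      conj (-ex (θ + (φ - ψ)))).re : ℝ) : ℂ) * -ex (θ + (φ - ψ))
    have e1 : ex (θ + φ) * conj (-ex (θ + (φ - ψ))) = -ex ψ := by
      rw [map_neg, ← ex_neg, mul_neg, ← ex_add]
      congr 2
      ring
    rw [e1]
    have e2 : (-ex ψ).re = -Real.cos ψ := by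
      rw [ex_eq]
      simp [Complex.cos_ofReal_re, Complex.sin_ofReal_im]
    rw [e2]
    have e3 : ex (θ + φ) = ex (θ + (φ - ψ)) * ex ψ := by
      rw [← ex_add]
      congr 1
      ring
    have e4 : ex (θ + (φ - ψ) - ψ) = ex (θ + (φ - ψ)) * ex (-ψ) := by
      rw [← ex_add]
      congr 1
    rw [e3, e4, ex_eq ψ, ex_eq (-ψ), Real.cos_neg, Real.sin_neg]
    push_cast
    ring

/-- from the outer to the inner circle -/
theorem step_out {θ φ ψ : ℝ} (hφ : |φ| < Real.pi / 2) (hψ : |ψ| < Real.pi / 2)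
    (h : Real.sin φ = 2 * Real.sin ψ) : ann.Step (Out θ ψ) (In (θ + (φ - ψ)) φ) := by
  obtain ⟨h1, h2, h3, h4⟩ := cos_ineq hφ hψ h
  refine ⟨2 * Real.cos ψ - Real.cos φ, by linarith, ?_, ?_, (0 : Fin 2), -(θ + (φ - ψ)), ?_, ?_⟩
  · show ex (θ + (φ - ψ)) = 2 * ex θ + ((2 * Real.cos ψ - Real.cos φ : ℝ) : ℂ) * -ex (θ - ψ)
    have e1 : ex θ = ex (θ - ψ) * ex ψ := by
      rw [← ex_add]
      congr 1
      ring
    have e2 : ex (θ + (φ - ψ)) = ex (θ - ψ) * ex φ := by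
      rw [← ex_add]
      congr 1
      ring
    rw [e1, e2, ex_eq φ, ex_eq ψ, h]
    push_cast
    ring
  · intro s hs
    show 2 * ex θ + (s : ℂ) * -ex (θ - ψ) ∈ _
    have e1 := normSq_aux 2 (-s) θ (-ψ)
    have e2 : ((2 : ℝ) : ℂ) * ex θ + ((-s : ℝ) : ℂ) * ex (θ + -ψ) =
        2 * ex θ + (s : ℂ) * -ex (θ - ψ) := by
      rw [← sub_eq_add_neg]
      push_cast
      ring
    rw [e2, Real.cos_neg] at e1
    obtain ⟨hs1, hs2⟩ := hs
    apply mem_int_of_sq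
    · rw [e1]
      nlinarith [mul_pos (sub_pos.2 hs2) (by linarith : 0 < 2 * Real.cos ψ + Real.cos φ - s)]
    · rw [e1]
      nlinarith [mul_pos hs1 (by linarith : 0 < 4 * Real.cos ψ - s)]
  · show ex (θ + (φ - ψ)) = gA 0 (-(θ + (φ - ψ)))
    rw [gA0, neg_neg]
  · have hn : ann.normal (0 : Fin 2) (-(θ + (φ - ψ))) = ex (θ + (φ - ψ)) := by
      show I * deriv (gA 0) (-(θ + (φ - ψ))) = _
      rw [(hasDerivAt_gA0 _).deriv, neg_neg]
      have := I_mul_I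
      linear_combination (-ex (θ + (φ - ψ))) * this
    rw [hn]
    show ex (θ + (φ - ψ) + φ) = -ex (θ - ψ) - ((2 * (-ex (θ - ψ) *
      conj (ex (θ + (φ - ψ)))).re : ℝ) : ℂ) * ex (θ + (φ - ψ))
    have e1 : -ex (θ - ψ) * conj (ex (θ + (φ - ψ))) = -ex (-φ) := by
      rw [← ex_neg, neg_mul, ← ex_add]
      congr 2
      ring
    rw [e1]
    have e2 : (-ex (-φ)).re = -Real.cos φ := by
      rw [ex_eq]
      simp [Complex.cos_ofReal_re, Complex.sin_ofReal_im]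
    rw [e2]
    have e3 : ex (θ - ψ) = ex (θ + (φ - ψ)) * ex (-φ) := by
      rw [← ex_add]
      congr 1
      ring
    have e4 : ex (θ + (φ - ψ) + φ) = ex (θ + (φ - ψ)) * ex φ := by
      rw [← ex_add]
    rw [e3, e4, ex_eq φ, ex_eq (-φ), Real.cos_neg, Real.sin_neg]
    push_cast
    ring

theorem T_in {θ φ ψ : ℝ} (hφ : |φ| < Real.pi / 2) (hψ : |ψ| < Real.pi / 2)
    (h : Real.sin φ = 2 * Real.sin ψ) : ann.T (In θ φ) = Out (θ + (φ - ψ)) ψ :=
  ann.T_eq (step_in hφ hψ h)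

theorem T_out {θ φ ψ : ℝ} (hφ : |φ| < Real.pi / 2) (hψ : |ψ| < Real.pi / 2)
    (h : Real.sin φ = 2 * Real.sin ψ) : ann.T (Out θ ψ) = In (θ + (φ - ψ)) φ :=
  ann.T_eq (step_out hφ hψ h)

theorem trans_in {θ φ : ℝ} (hφ : |φ| < Real.pi / 2) : In θ φ ∈ ann.Transversal := by
  refine ⟨(0 : Fin 2), (-θ, -φ), by simpa using hφ, ?_⟩
  rw [coord0]
  simp

theorem trans_out {θ ψ : ℝ} (hψ : |ψ| < Real.pi / 2) : Out θ ψ ∈ ann.Transversal := by
  refine ⟨(1 : Fin 2), (2 * θ, ψ), by simpa using hψ, ?_⟩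
  rw [coord1]
  simp

/-- the orbit through a state on the inner circle -/
noncomputable def orb (θ φ ψ : ℝ) (k : ℤ) : ℂ × ℂ :=
  if Even k then In (θ + k * (φ - ψ)) φ else Out (θ + k * (φ - ψ)) ψ

theorem orb_step {θ φ ψ : ℝ} (hφ : |φ| < Real.pi / 2) (hψ : |ψ| < Real.pi / 2)
    (h : Real.sin φ = 2 * Real.sin ψ) (k : ℤ) :
    orb θ φ ψ k ∈ ann.Transversal ∧ ann.Step (orb θ φ ψ k) (orb θ φ ψ (k + 1)) := by
  have e : θ + ((k + 1 : ℤ) : ℝ) * (φ - ψ) = θ + k * (φ - ψ) + (φ - ψ) := by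
    push_cast
    ring
  by_cases hk : Even k
  · have hk' : ¬ Even (k + 1) := by
      rw [Int.even_add_one]
      simpa using hk
    simp only [orb, if_pos hk, if_neg hk']
    rw [e]
    exact ⟨trans_in hφ, step_in hφ hψ h⟩
  · have hk' : Even (k + 1) := by
      rw [Int.even_add_one]
      exact hk
    simp only [orb, if_neg hk, if_pos hk']
    rw [e]
    exact ⟨trans_out hψ, step_out hφ hψ h⟩

theorem nonsing_in {θ φ ψ : ℝ} (hφ : |φ| < Real.pi / 2) (hψ : |ψ| < Real.pi / 2)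
    (h : Real.sin φ = 2 * Real.sin ψ) : In θ φ ∈ ann.Nonsingular := by
  refine ⟨orb θ φ ψ, ?_, orb_step hφ hψ h⟩
  simp [orb]

theorem nonsing_out {θ φ ψ : ℝ} (hφ : |φ| < Real.pi / 2) (hψ : |ψ| < Real.pi / 2)
    (h : Real.sin φ = 2 * Real.sin ψ) : Out θ ψ ∈ ann.Nonsingular := by
  refine ⟨fun k => orb (θ - (φ - ψ)) φ ψ (k + 1), ?_, fun k => ?_⟩
  · have h1 : ¬ Even (0 + 1 : ℤ) := by decide
    simp only [orb, if_neg h1]
    congr 1
    push_cast
    ring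
  · exact orb_step hφ hψ h (k + 1)

theorem iter_orb {θ φ ψ : ℝ} (hφ : |φ| < Real.pi / 2) (hψ : |ψ| < Real.pi / 2)
    (h : Real.sin φ = 2 * Real.sin ψ) (j : ℤ) (n : ℕ) :
    ann.T^[n] (orb θ φ ψ j) = orb θ φ ψ (j + n) := by
  induction n with
  | zero => simp
  | succ n ih =>
    rw [Function.iterate_succ_apply', ih, ann.T_eq (orb_step hφ hψ h (j + n)).2]
    congr 1
    push_cast
    ring

/-- if an orbit is periodic then its rotation angle is a rational multiple of `2 π` -/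
theorem orb_periodic {θ φ ψ : ℝ} (hφ : |φ| < Real.pi / 2) (hψ : |ψ| < Real.pi / 2)
    (h : Real.sin φ = 2 * Real.sin ψ) (j : ℤ) (n : ℕ)
    (hp : ann.T^[n] (orb θ φ ψ j) = orb θ φ ψ j) :
    ∃ k : ℤ, (n : ℝ) * (φ - ψ) = k * (2 * Real.pi) := by
  rw [iter_orb hφ hψ h] at hp
  have h1 := congrArg Prod.fst hp
  by_cases hj : Even j
  · by_cases hjn : Even (j + n)
    · simp only [orb, if_pos hj, if_pos hjn, In] at h1
      rw [ex_eq_iff] at h1
      obtain ⟨k, hk⟩ := h1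
      refine ⟨k, ?_⟩
      push_cast at hk
      linarith
    · exfalso
      simp only [orb, if_pos hj, if_neg hjn, In, Out] at h1
      have h2 := congrArg (fun z : ℂ => ‖z‖) h1
      simp [norm_ex] at h2
  · by_cases hjn : Even (j + n)
    · exfalso
      simp only [orb, if_neg hj, if_pos hjn, In, Out] at h1
      have h2 := congrArg (fun z : ℂ => ‖z‖) h1
      simp [norm_ex] at h2
    · simp only [orb, if_neg hj, if_neg hjn, Out] at h1
      have h3 := mul_left_cancel₀ (by norm_num : (2 : ℂ) ≠ 0) h1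
      rw [ex_eq_iff] at h3
      obtain ⟨k, hk⟩ := h3
      refine ⟨k, ?_⟩
      push_cast at hk
      linarith

end Pool.Agent.H735R2.Osel
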