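import Mathlib
import Pool.Agent.H735R2.OselDyn

set_option autoImplicit false

open Set Filter Topology MeasureTheory Complex ComplexConjugate

namespace Pool.Agent.H735R2.Osel

/-- the angular momentum as a function of the parameter `u` -/
noncomputable def hh (u : ℝ) : ℝ := 1 - Real.exp (-(1 / u))

/-- the angle with the inward normal on the inner circle -/
noncomputable def ph (u : ℝ) : ℝ := Real.arcsin (hh u)

/-- the angle with the inward normal on the outer circle -/
noncomputable def ps (u : ℝ) : ℝ := Real.arcsin (hh u / 2)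

theorem hh_mem {u : ℝ} (hu : u ∈ Ioo (0 : ℝ) 1) : hh u ∈ Ioo (0 : ℝ) 1 := by
  unfold hh
  have h1 : -(1 / u) < 0 := by
    have := hu.1
    have : 0 < 1 / u := by positivity
    linarith
  have h2 : Real.exp (-(1 / u)) < 1 := Real.exp_lt_one_iff.2 h1
  have h3 := Real.exp_pos (-(1 / u))
  constructor <;> linarith

theorem hh_inj : InjOn hh (Ioo (0 : ℝ) 1) := by
  intro u hu v hv h
  unfold hh at h
  have h1 : Real.exp (-(1 / u)) = Real.exp (-(1 / v)) := by linarith
  have h2 := Real.exp_injective h1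
  have hu0 : u ≠ 0 := hu.1.ne'
  have hv0 : v ≠ 0 := hv.1.ne'
  field_simp at h2
  linarith

theorem ph_lt {u : ℝ} (hu : u ∈ Ioo (0 : ℝ) 1) : |ph u| < Real.pi / 2 := by
  obtain ⟨h1, h2⟩ := hh_mem hu
  rw [abs_lt]
  exact ⟨Real.neg_pi_div_two_lt_arcsin.2 (by linarith), Real.arcsin_lt_pi_div_two.2 h2⟩

theorem ps_lt {u : ℝ} (hu : u ∈ Ioo (0 : ℝ) 1) : |ps u| < Real.pi / 2 := by
  obtain ⟨h1, h2⟩ := hh_mem hu
  rw [abs_lt]
  exact ⟨Real.neg_pi_div_two_lt_arcsin.2 (by linarith), Real.arcsin_lt_pi_div_two.2 (by linarith)⟩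

theorem sin_ph {u : ℝ} (hu : u ∈ Ioo (0 : ℝ) 1) : Real.sin (ph u) = hh u := by
  obtain ⟨h1, h2⟩ := hh_mem hu
  exact Real.sin_arcsin (by linarith) (by linarith)

theorem sin_ps {u : ℝ} (hu : u ∈ Ioo (0 : ℝ) 1) : Real.sin (ps u) = hh u / 2 := by
  obtain ⟨h1, h2⟩ := hh_mem hu
  exact Real.sin_arcsin (by linarith) (by linarith)

theorem sin_rel {u : ℝ} (hu : u ∈ Ioo (0 : ℝ) 1) : Real.sin (ph u) = 2 * Real.sin (ps u) := by
  rw [sin_ph hu, sin_ps hu]
  ring

theorem measurable_hh : Measurable hh := by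
  unfold hh
  fun_prop

theorem measurable_ph : Measurable ph := Real.continuous_arcsin.measurable.comp measurable_hh

theorem measurable_ps : Measurable ps :=
  Real.continuous_arcsin.measurable.comp (measurable_hh.div_const 2)

/-- the rotation angle is an injective function of the angular momentum -/
theorem rot_inj : StrictMonoOn (fun x : ℝ => Real.arcsin x - Real.arcsin (x / 2)) (Ioo 0 1) := by
  apply strictMonoOn_of_deriv_pos (convex_Ioo 0 1)
  · apply Continuous.continuousOn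
    exact Real.continuous_arcsin.sub (Real.continuous_arcsin.comp (continuous_id.div_const 2))
  · intro x hx
    rw [interior_Ioo] at hx
    obtain ⟨h1, h2⟩ := hx
    have d1 : HasDerivAt Real.arcsin (1 / √(1 - x ^ 2)) x :=
      Real.hasDerivAt_arcsin (by linarith) (by linarith)
    have d2 : HasDerivAt Real.arcsin (1 / √(1 - (x / 2) ^ 2)) (x / 2) :=
      Real.hasDerivAt_arcsin (by linarith) (by linarith)
    have d3 : HasDerivAt (fun x : ℝ => x / 2) (1 / 2) x := (hasDerivAt_id x).div_const 2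
    have d4 := d1.sub (d2.comp x d3)
    rw [show deriv (fun x : ℝ => Real.arcsin x - Real.arcsin (x / 2)) x = _ from d4.deriv]
    have e1 : 1 ≤ 1 / √(1 - x ^ 2) := by
      rw [le_div_iff₀ (Real.sqrt_pos.2 (by nlinarith))]
      rw [one_mul]
      calc √(1 - x ^ 2) ≤ √1 := Real.sqrt_le_sqrt (by nlinarith)
        _ = 1 := Real.sqrt_one
    have e2 : 1 / √(1 - (x / 2) ^ 2) < 2 := by
      have e3 : 1 / 2 < √(1 - (x / 2) ^ 2) := by
        apply Real.lt_sqrt_of_sq_lt
        nlinarith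
      rw [div_lt_iff₀ (by linarith)]
      linarith
    linarith

/-- the parameter domain -/
def dom : Set (ℝ × ℝ) := Ioc 0 (2 * Real.pi) ×ˢ Ioo 0 1

theorem measurableSet_dom : MeasurableSet dom := measurableSet_Ioc.prod measurableSet_Ioo

noncomputable def cI (p : ℝ × ℝ) : ℂ × ℂ := In p.1 (ph p.2)

noncomputable def cO (p : ℝ × ℝ) : ℂ × ℂ := Out p.1 (ps p.2)

noncomputable def Sh (p : ℝ × ℝ) : ℝ × ℝ := (p.1 + (ph p.2 - ps p.2), p.2)

theorem measurable_cI : Measurable cI := by
  unfold cI In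
  have h1 := continuous_ex.measurable
  have h2 := measurable_ph
  apply Measurable.prodMk
  · exact h1.comp measurable_fst
  · exact h1.comp (measurable_fst.add (h2.comp measurable_snd))

theorem measurable_cO : Measurable cO := by
  unfold cO Out
  have h1 := continuous_ex.measurable
  have h2 := measurable_ps
  apply Measurable.prodMk
  · exact (h1.comp measurable_fst).const_mul 2
  · exact (h1.comp (measurable_fst.sub (h2.comp measurable_snd))).neg

theorem measurable_Sh : Measurable Sh := by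
  unfold Sh
  have h1 := measurable_ph
  have h2 := measurable_ps
  apply Measurable.prodMk
  · exact measurable_fst.add ((h1.comp measurable_snd).sub (h2.comp measurable_snd))
  · exact measurable_snd

theorem T_cI {p : ℝ × ℝ} (hp : p.2 ∈ Ioo (0 : ℝ) 1) : ann.T (cI p) = cO (Sh p) :=
  T_in (ph_lt hp) (ps_lt hp) (sin_rel hp)

theorem T_cO {p : ℝ × ℝ} (hp : p.2 ∈ Ioo (0 : ℝ) 1) : ann.T (cO p) = cI (Sh p) :=
  T_out (ph_lt hp) (ps_lt hp) (sin_rel hp)

theorem ex_inj_Ioc {a b : ℝ} (ha : a ∈ Ioc 0 (2 * Real.pi)) (hb : b ∈ Ioc 0 (2 * Real.pi))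
    (h : ex a = ex b) : a = b := by
  rw [ex_eq_iff] at h
  obtain ⟨k, hk⟩ := h
  have hpi := Real.pi_pos
  have h1 : (k : ℝ) < 1 := by
    by_contra hc
    push Not at hc
    have := mul_le_mul_of_nonneg_right hc (by linarith : 0 ≤ 2 * Real.pi)
    linarith [ha.2, hb.1]
  have h2 : (-1 : ℝ) < k := by
    by_contra hc
    push Not at hc
    have := mul_le_mul_of_nonneg_right hc (by linarith : 0 ≤ 2 * Real.pi)
    linarith [ha.1, hb.2]
  have h3 : k < 1 := by exact_mod_cast h1
  have h4 : -1 < k := by exact_mod_cast h2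
  have h5 : k = 0 := by omega
  rw [h5] at hk
  simpa using hk

theorem ex_inj_small {a b : ℝ} (ha : |a| < Real.pi / 2) (hb : |b| < Real.pi / 2)
    (h : ex a = ex b) : a = b := by
  rw [ex_eq_iff] at h
  obtain ⟨k, hk⟩ := h
  have hpi := Real.pi_pos
  rw [abs_lt] at ha hb
  have h1 : (k : ℝ) < 1 := by
    by_contra hc
    push Not at hc
    have := mul_le_mul_of_nonneg_right hc (by linarith : 0 ≤ 2 * Real.pi)
    linarith [ha.2, hb.1]
  have h2 : (-1 : ℝ) < k := by
    by_contra hc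
    push Not at hc
    have := mul_le_mul_of_nonneg_right hc (by linarith : 0 ≤ 2 * Real.pi)
    linarith [ha.1, hb.2]
  have h3 : k < 1 := by exact_mod_cast h1
  have h4 : -1 < k := by exact_mod_cast h2
  have h5 : k = 0 := by omega
  rw [h5] at hk
  simpa using hk

theorem cI_inj : InjOn cI dom := by
  rintro ⟨a, u⟩ ⟨ha, hu⟩ ⟨b, v⟩ ⟨hb, hv⟩ h
  simp only at ha hu hb hv
  unfold cI In at h
  simp only [Prod.mk.injEq] at h
  obtain ⟨h1, h2⟩ := h
  have h3 := ex_inj_Ioc ha hb h1
  rw [ex_add, ex_add, h1] at h2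
  have h4 := mul_left_cancel₀ (ex_ne b) h2
  have h5 := ex_inj_small (ph_lt hu) (ph_lt hv) h4
  have h6 : hh u = hh v := by rw [← sin_ph hu, ← sin_ph hv, h5]
  have h7 := hh_inj hu hv h6
  rw [h3, h7]

theorem cO_inj : InjOn cO dom := by
  rintro ⟨a, u⟩ ⟨ha, hu⟩ ⟨b, v⟩ ⟨hb, hv⟩ h
  simp only at ha hu hb hv
  unfold cO Out at h
  simp only [Prod.mk.injEq] at h
  obtain ⟨h1, h2⟩ := h
  have h1' := mul_left_cancel₀ (by norm_num : (2 : ℂ) ≠ 0) h1
  have h3 := ex_inj_Ioc ha hb h1'
  rw [sub_eq_add_neg, sub_eq_add_neg, ex_add, ex_add, h1'] at h2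
  have h4 := mul_left_cancel₀ (ex_ne b) (neg_inj.1 h2)
  have h5 := ex_inj_small (by rw [abs_neg]; exact ps_lt hu) (by rw [abs_neg]; exact ps_lt hv) h4
  have h6 : hh u = hh v := by
    have e1 := sin_ps hu
    have e2 := sin_ps hv
    rw [neg_inj] at h5
    rw [h5] at e1
    linarith
  have h7 := hh_inj hu hv h6
  rw [h3, h7]

/-- Lebesgue measure on the parameter domain -/
noncomputable def mus : Measure dom := (volume : Measure (ℝ × ℝ)).comap Subtype.val

theorem map_mus : mus.map (Subtype.val : dom → ℝ × ℝ) = volume.restrict dom :=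
  map_comap_subtype_coe measurableSet_dom _

theorem emb_I : MeasurableEmbedding (fun p : dom => cI p.1) := by
  have := measurableSet_dom.standardBorel
  apply Measurable.measurableEmbedding (measurable_cI.comp measurable_subtype_coe)
  intro p q h
  exact Subtype.ext (cI_inj p.2 q.2 h)

theorem emb_O : MeasurableEmbedding (fun p : dom => cO p.1) := by
  have := measurableSet_dom.standardBorel
  apply Measurable.measurableEmbedding (measurable_cO.comp measurable_subtype_coe)
  intro p q h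
  exact Subtype.ext (cO_inj p.2 q.2 h)

/-- the invariant measure -/
noncomputable def mu : Measure (ℂ × ℂ) :=
  ENNReal.ofReal (1 / (4 * Real.pi)) •
    (mus.map (fun p : dom => cI p.1) + mus.map (fun p : dom => cO p.1))

theorem mus_univ : mus univ = ENNReal.ofReal (2 * Real.pi) := by
  have h1 : (mus.map (Subtype.val : dom → ℝ × ℝ)) univ = mus univ := by
    rw [Measure.map_apply measurable_subtype_coe MeasurableSet.univ, preimage_univ]
  rw [← h1, map_mus, Measure.restrict_apply_univ]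
  unfold dom
  rw [Measure.volume_eq_prod, Measure.prod_prod, Real.volume_Ioc, Real.volume_Ioo]
  simp

theorem mu_univ : mu univ = 1 := by
  unfold mu
  rw [Measure.smul_apply, Measure.add_apply, Measure.map_apply emb_I.measurable MeasurableSet.univ,
    Measure.map_apply emb_O.measurable MeasurableSet.univ, preimage_univ, preimage_univ, mus_univ]
  rw [smul_eq_mul]
  have hpi := Real.pi_pos
  rw [← ENNReal.ofReal_add (by linarith) (by linarith), ← ENNReal.ofReal_mul (by positivity)]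
  have : 1 / (4 * Real.pi) * (2 * Real.pi + 2 * Real.pi) = 1 := by
    field_simp
    ring
  rw [this, ENNReal.ofReal_one]

theorem mu_ae {P : ℂ × ℂ → Prop} (h1 : ∀ᵐ p ∂mus, P (cI p.1)) (h2 : ∀ᵐ p ∂mus, P (cO p.1)) :
    ∀ᵐ x ∂mu, P x := by
  unfold mu
  apply Measure.ae_smul_measure
  rw [ae_add_measure_iff]
  exact ⟨emb_I.ae_map_iff.2 h1, emb_O.ae_map_iff.2 h2⟩

theorem mu_nonsing : mu (ann.Nonsingular)ᶜ = 0 := by
  have h : ∀ᵐ x ∂mu, x ∈ ann.Nonsingular := by
    apply mu_ae
    · exact Eventually.of_forall fun p => nonsing_in (ph_lt p.2.2) (ps_lt p.2.2) (sin_rel p.2.2)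
    · exact Eventually.of_forall fun p => nonsing_out (ph_lt p.2.2) (ps_lt p.2.2) (sin_rel p.2.2)
  exact h

/-- invariance of Lebesgue measure modulo the period under the skew translation -/
theorem map_shift (g : ℝ × ℝ → ℂ × ℂ) (hg : Measurable g)
    (hper : ∀ p : ℝ × ℝ, g (p.1 + 2 * Real.pi, p.2) = g p) :
    (volume.restrict dom).map (g ∘ Sh) = (volume.restrict dom).map g := by
  ext A hA
  rw [Measure.map_apply (hg.comp measurable_Sh) hA, Measure.map_apply hg hA]
  have hr : (volume.restrict dom : Measure (ℝ × ℝ)) =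
      (volume.restrict (Ioc 0 (2 * Real.pi))).prod (volume.restrict (Ioo (0 : ℝ) 1)) := by
    unfold dom
    rw [Measure.prod_restrict, ← Measure.volume_eq_prod]
  rw [hr, Measure.prod_apply_symm ((hg.comp measurable_Sh) hA), Measure.prod_apply_symm (hg hA)]
  apply lintegral_congr
  intro u
  obtain ⟨c, hc⟩ : ∃ c, c = ph u - ps u := ⟨_, rfl⟩
  obtain ⟨E, hE⟩ : ∃ E : Set ℝ, E = {θ | g (θ, u) ∈ A} := ⟨_, rfl⟩
  have hEm : MeasurableSet E := by
    rw [hE]
    exact (hg.comp (measurable_id.prodMk measurable_const)) hA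
  have e1 : ((fun x => (x, u)) ⁻¹' (g ⁻¹' A)) = E := by
    rw [hE]
    rfl
  have e2 : ((fun x => (x, u)) ⁻¹' ((g ∘ Sh) ⁻¹' A)) = (fun x => x + c) ⁻¹' E := by
    rw [hE, hc]
    rfl
  have hEc : MeasurableSet ((fun x : ℝ => x + c) ⁻¹' E) :=
    hEm.preimage (measurable_id.add_const c)
  rw [e1, e2, Measure.restrict_apply hEc, Measure.restrict_apply hEm]
  have hpi : (0 : ℝ) < 2 * Real.pi := by
    have := Real.pi_pos
    linarith
  have e3 : (fun x : ℝ => x + c) ⁻¹' E ∩ Ioc 0 (2 * Real.pi) =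
      (fun x : ℝ => x + c) ⁻¹' (E ∩ Ioc c (c + 2 * Real.pi)) := by
    ext x
    simp only [mem_inter_iff, mem_preimage, mem_Ioc]
    constructor
    · rintro ⟨h1, h2, h3⟩
      exact ⟨h1, by linarith, by linarith⟩
    · rintro ⟨h1, h2, h3⟩
      exact ⟨h1, by linarith, by linarith⟩
  rw [e3, measure_preimage_add_right]
  have f1 := isAddFundamentalDomain_Ioc hpi c (volume : Measure ℝ)
  have f2 := isAddFundamentalDomain_Ioc hpi 0 (volume : Measure ℝ)
  rw [zero_add] at f2
  have hper' : Function.Periodic (fun θ => g (θ, u)) (2 * Real.pi) := fun θ => hper (θ, u)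
  apply f1.measure_set_eq f2 hEm
  rintro ⟨a, ha⟩
  obtain ⟨k, rfl⟩ := AddSubgroup.mem_zmultiples_iff.1 ha
  ext θ
  show (k • (2 * Real.pi) + θ) ∈ E ↔ θ ∈ E
  rw [hE]
  show g (k • (2 * Real.pi) + θ, u) ∈ A ↔ g (θ, u) ∈ A
  have h5 : g (k • (2 * Real.pi) + θ, u) = g (θ, u) := by
    have := (hper'.zsmul k) θ
    rw [add_comm] at this
    exact this
  rw [h5]

theorem cI_per (p : ℝ × ℝ) : cI (p.1 + 2 * Real.pi, p.2) = cI p := by
  unfold cI In
  refine Prod.ext ?_ ?_
  · show ex (p.1 + 2 * Real.pi) = ex p.1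
    rw [ex_eq_iff]
    exact ⟨1, by push_cast; ring⟩
  · show ex (p.1 + 2 * Real.pi + ph p.2) = ex (p.1 + ph p.2)
    rw [ex_eq_iff]
    exact ⟨1, by push_cast; ring⟩

theorem cO_per (p : ℝ × ℝ) : cO (p.1 + 2 * Real.pi, p.2) = cO p := by
  unfold cO Out
  refine Prod.ext ?_ ?_
  · show 2 * ex (p.1 + 2 * Real.pi) = 2 * ex p.1
    congr 1
    rw [ex_eq_iff]
    exact ⟨1, by push_cast; ring⟩
  · show -ex (p.1 + 2 * Real.pi - ps p.2) = -ex (p.1 - ps p.2)
    congr 1
    rw [ex_eq_iff]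
    exact ⟨1, by push_cast; ring⟩

theorem mu_inv : mu.map ann.T = mu := by
  have hTI : (ann.T ∘ fun p : dom => cI p.1) = fun p : dom => cO (Sh p.1) := by
    funext p
    exact T_cI p.2.2
  have hTO : (ann.T ∘ fun p : dom => cO p.1) = fun p : dom => cI (Sh p.1) := by
    funext p
    exact T_cO p.2.2
  have m1 : Measurable (fun p : dom => cO (Sh p.1)) :=
    (measurable_cO.comp measurable_Sh).comp measurable_subtype_coe
  have m2 : Measurable (fun p : dom => cI (Sh p.1)) :=
    (measurable_cI.comp measurable_Sh).comp measurable_subtype_coe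
  have a1 : AEMeasurable ann.T (mus.map (fun p : dom => cI p.1)) := by
    rw [emb_I.aemeasurable_map_iff, hTI]
    exact m1.aemeasurable
  have a2 : AEMeasurable ann.T (mus.map (fun p : dom => cO p.1)) := by
    rw [emb_O.aemeasurable_map_iff, hTO]
    exact m2.aemeasurable
  have k1 : (mus.map (fun p : dom => cI p.1)).map ann.T = mus.map (fun p : dom => cO p.1) := by
    rw [AEMeasurable.map_map_of_aemeasurable a1 emb_I.measurable.aemeasurable, hTI]
    have e1 : (fun p : dom => cO (Sh p.1)) = (cO ∘ Sh) ∘ Subtype.val := rfl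
    have e2 : (fun p : dom => cO p.1) = cO ∘ Subtype.val := rfl
    rw [e1, e2, ← Measure.map_map (measurable_cO.comp measurable_Sh) measurable_subtype_coe,
      ← Measure.map_map measurable_cO measurable_subtype_coe, map_mus]
    exact map_shift cO measurable_cO cO_per
  have k2 : (mus.map (fun p : dom => cO p.1)).map ann.T = mus.map (fun p : dom => cI p.1) := by
    rw [AEMeasurable.map_map_of_aemeasurable a2 emb_O.measurable.aemeasurable, hTO]
    have e1 : (fun p : dom => cI (Sh p.1)) = (cI ∘ Sh) ∘ Subtype.val := rfl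
    have e2 : (fun p : dom => cI p.1) = cI ∘ Subtype.val := rfl
    rw [e1, e2, ← Measure.map_map (measurable_cI.comp measurable_Sh) measurable_subtype_coe,
      ← Measure.map_map measurable_cI measurable_subtype_coe, map_mus]
    exact map_shift cI measurable_cI cI_per
  unfold mu
  rw [Measure.map_smul, AEMeasurable.map_add₀ a1 a2, k1, k2, add_comm]

theorem mu_nonper : ann.NonPeriodic mu := by
  have hbad : ({u : ℝ | u ∈ Ioo (0 : ℝ) 1 ∧
      ∃ n : ℕ, 0 < n ∧ ∃ k : ℤ, (n : ℝ) * (ph u - ps u) = k * (2 * Real.pi)}).Countable := by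
    have h1 : {u : ℝ | u ∈ Ioo (0 : ℝ) 1 ∧
        ∃ n : ℕ, 0 < n ∧ ∃ k : ℤ, (n : ℝ) * (ph u - ps u) = k * (2 * Real.pi)} ⊆
        ⋃ (n : ℕ) (k : ℤ), {u | u ∈ Ioo (0 : ℝ) 1 ∧ 0 < n ∧
          (n : ℝ) * (ph u - ps u) = k * (2 * Real.pi)} := by
      rintro u ⟨h1, n, h2, k, h3⟩
      exact mem_iUnion.2 ⟨n, mem_iUnion.2 ⟨k, h1, h2, h3⟩⟩
    refine Countable.mono h1 ?_
    refine countable_iUnion fun n => countable_iUnion fun k => Set.Subsingleton.countable ?_
    rintro u ⟨hu, hn, h2⟩ v ⟨hv, _, h3⟩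
    have hn' : (n : ℝ) ≠ 0 := by
      have : (0 : ℝ) < n := by exact_mod_cast hn
      exact this.ne'
    have h4 : ph u - ps u = ph v - ps v := mul_left_cancel₀ hn' (h2.trans h3.symm)
    exact hh_inj hu hv (rot_inj.injOn (hh_mem hu) (hh_mem hv) h4)
  have hnull : ∀ᵐ p ∂mus, ¬ ∃ n : ℕ, 0 < n ∧ ∃ k : ℤ,
      (n : ℝ) * (ph p.1.2 - ps p.1.2) = k * (2 * Real.pi) := by
    have h1 : ∀ᵐ p ∂(volume.restrict dom : Measure (ℝ × ℝ)),
        ¬ ∃ n : ℕ, 0 < n ∧ ∃ k : ℤ, (n : ℝ) * (ph p.2 - ps p.2) = k * (2 * Real.pi) := by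
      rw [ae_restrict_iff' measurableSet_dom]
      have h2 : (volume : Measure (ℝ × ℝ)) (univ ×ˢ {u : ℝ | u ∈ Ioo (0 : ℝ) 1 ∧
          ∃ n : ℕ, 0 < n ∧ ∃ k : ℤ, (n : ℝ) * (ph u - ps u) = k * (2 * Real.pi)}) = 0 := by
        rw [Measure.volume_eq_prod, Measure.prod_prod, hbad.measure_zero, mul_zero]
      refine measure_mono_null ?_ h2
      intro p hp
      simp only [mem_compl_iff, Set.mem_ofPred_eq, not_forall, not_not] at hp
      obtain ⟨h3, h4⟩ := hp
      exact ⟨mem_univ _, h3.2, h4⟩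
    rw [← map_mus, (MeasurableEmbedding.subtype_coe measurableSet_dom).ae_map_iff] at h1
    exact h1
  have h : ∀ᵐ x ∂mu, ¬ ∃ n : ℕ, 0 < n ∧ ann.T^[n] x = x := by
    apply mu_ae
    · filter_upwards [hnull] with p hp
      rintro ⟨n, hn, h1⟩
      apply hp
      refine ⟨n, hn, ?_⟩
      refine orb_periodic (θ := p.1.1) (ph_lt p.2.2) (ps_lt p.2.2) (sin_rel p.2.2) 0 n ?_
      have e1 : orb p.1.1 (ph p.1.2) (ps p.1.2) 0 = cI p.1 := by
        simp [orb, cI]
      rw [e1]
      exact h1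
    · filter_upwards [hnull] with p hp
      rintro ⟨n, hn, h1⟩
      apply hp
      refine ⟨n, hn, ?_⟩
      refine orb_periodic (θ := p.1.1 - (ph p.1.2 - ps p.1.2)) (ph_lt p.2.2) (ps_lt p.2.2)
        (sin_rel p.2.2) 1 n ?_
      have e1 : orb (p.1.1 - (ph p.1.2 - ps p.1.2)) (ph p.1.2) (ps p.1.2) 1 = cO p.1 := by
        have : ¬ Even (1 : ℤ) := by decide
        simp only [orb, if_neg this, cO]
        congr 1
        push_cast
        ring
      rw [e1]
      exact h1
  unfold Table.NonPeriodic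
  have h2 := h
  rw [ae_iff] at h2
  simpa using h2

theorem mu_prob : ann.InvariantProb mu := ⟨mu_univ, mu_nonsing, mu_inv⟩

end Pool.Agent.H735R2.Osel
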