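import Mathlib
import Pool.Agent.H735R2.OselMeas

set_option autoImplicit false

open Set Filter Topology MeasureTheory Complex ComplexConjugate

namespace Pool.Agent.H735R2.Osel

theorem norm_In (θ φ : ℝ) : ‖(In θ φ).1‖ = 1 := by simp [In, norm_ex]

theorem norm_Out (θ ψ : ℝ) : ‖(Out θ ψ).1‖ = 2 := by simp [Out, norm_ex]

theorem In_inj {a b c d : ℝ} (hb : |b| < Real.pi / 2) (hd : |d| < Real.pi / 2)
    (h : In a b = In c d) : b = d := by
  unfold In at h
  simp only [Prod.mk.injEq] at h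
  obtain ⟨h1, h2⟩ := h
  rw [ex_add, ex_add, h1] at h2
  exact ex_inj_small hb hd (mul_left_cancel₀ (ex_ne c) h2)

theorem Out_inj {a b c d : ℝ} (hb : |b| < Real.pi / 2) (hd : |d| < Real.pi / 2)
    (h : Out a b = Out c d) : b = d := by
  unfold Out at h
  simp only [Prod.mk.injEq] at h
  obtain ⟨h1, h2⟩ := h
  have h1' := mul_left_cancel₀ (by norm_num : (2 : ℂ) ≠ 0) h1
  rw [sub_eq_add_neg, sub_eq_add_neg, ex_add, ex_add, h1'] at h2
  have h3 := ex_inj_small (by rw [abs_neg]; exact hb) (by rw [abs_neg]; exact hd)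
    (mul_left_cancel₀ (ex_ne c) (neg_inj.1 h2))
  linarith

/-- the angle on the inner circle as a function of the angle on the outer circle -/
noncomputable def fa (ψ : ℝ) : ℝ := Real.arcsin (2 * Real.sin ψ)

/-- the billiard map in coordinates, from the outer to the inner circle -/
noncomputable def Fx (p : ℝ × ℝ) : ℝ × ℝ := (-(p.1 / 2 + (fa p.2 - p.2)), -fa p.2)

theorem fa_lt {ψ : ℝ} (h : |2 * Real.sin ψ| < 1) : |fa ψ| < Real.pi / 2 := by
  rw [abs_lt] at h ⊢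
  exact ⟨Real.neg_pi_div_two_lt_arcsin.2 h.1, Real.arcsin_lt_pi_div_two.2 h.2⟩

theorem sin_fa {ψ : ℝ} (h : |2 * Real.sin ψ| < 1) : Real.sin (fa ψ) = 2 * Real.sin ψ := by
  rw [abs_lt] at h
  exact Real.sin_arcsin h.1.le h.2.le

theorem T_coord1 {p : ℝ × ℝ} (h1 : |p.2| < Real.pi / 2) (h2 : |2 * Real.sin p.2| < 1) :
    ann.T (ann.coord (1 : Fin 2) p) = ann.coord (0 : Fin 2) (Fx p) := by
  rw [coord1, coord0, T_out (fa_lt h2) h1 (sin_fa h2)]
  simp [Fx]

theorem ev_good {p : ℝ × ℝ} (h1 : |p.2| < Real.pi / 2) (h2 : |2 * Real.sin p.2| < 1) :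
    ∀ᶠ p' in 𝓝 p, |p'.2| < Real.pi / 2 ∧ |2 * Real.sin p'.2| < 1 := by
  have c1 : Continuous fun p' : ℝ × ℝ => |p'.2| := by fun_prop
  have c2 : Continuous fun p' : ℝ × ℝ => |2 * Real.sin p'.2| := by fun_prop
  exact (c1.continuousAt.eventually_lt_const h1).and (c2.continuousAt.eventually_lt_const h2)

theorem hasDerivAt_fa {ψ : ℝ} (h : |2 * Real.sin ψ| < 1) :
    HasDerivAt fa (2 * Real.cos ψ / Real.cos (fa ψ)) ψ := by
  have h' := abs_lt.1 h
  have d1 : HasDerivAt Real.arcsin (1 / √(1 - (2 * Real.sin ψ) ^ 2)) (2 * Real.sin ψ) :=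
    Real.hasDerivAt_arcsin (by linarith) (by linarith)
  have d2 : HasDerivAt (fun x => 2 * Real.sin x) (2 * Real.cos ψ) ψ :=
    (Real.hasDerivAt_sin ψ).const_mul 2
  have d3 := d1.comp ψ d2
  unfold fa
  rw [Real.cos_arcsin]
  have e : 2 * Real.cos ψ / √(1 - (2 * Real.sin ψ) ^ 2) =
      1 / √(1 - (2 * Real.sin ψ) ^ 2) * (2 * Real.cos ψ) := by ring
  rw [e]
  exact d3

theorem isDeriv_out {θ ψ : ℝ} (h1 : |ψ| < Real.pi / 2) (h2 : |2 * Real.sin ψ| < 1) :
    ∃ A, ann.IsDeriv (Out θ ψ) A := by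
  have hd : DifferentiableAt ℝ Fx (2 * θ, ψ) := by
    have d0 : DifferentiableAt ℝ fa ψ := (hasDerivAt_fa h2).differentiableAt
    have d1 : DifferentiableAt ℝ (fun p : ℝ × ℝ => fa p.2) (2 * θ, ψ) :=
      DifferentiableAt.comp (2 * θ, ψ) (g := fa) (f := Prod.snd) d0 differentiableAt_snd
    unfold Fx
    have d2 : DifferentiableAt ℝ (fun p : ℝ × ℝ => p.1 / 2) (2 * θ, ψ) := by fun_prop
    exact ((d2.add (d1.sub differentiableAt_snd)).neg).prodMk d1.neg
  refine ⟨fderiv ℝ Fx (2 * θ, ψ), (1 : Fin 2), (0 : Fin 2), (2 * θ, ψ), Fx, h1, ?_,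
    hd.hasFDerivAt, ?_⟩
  · rw [coord1]
    simp
  · filter_upwards [ev_good (p := (2 * θ, ψ)) h1 h2] with p' hp'
    refine ⟨?_, T_coord1 hp'.1 hp'.2⟩
    show |-fa p'.2| < _
    rw [abs_neg]
    exact fa_lt hp'.2

theorem fin_two (i : Fin 2) : i = 0 ∨ i = 1 := by
  fin_cases i
  · exact Or.inl rfl
  · exact Or.inr rfl

theorem deriv_bound {θ ψ : ℝ} (h1 : |ψ| < Real.pi / 2) (h2 : |2 * Real.sin ψ| < 1)
    {A : (ℝ × ℝ) →L[ℝ] (ℝ × ℝ)} (hA : ann.IsDeriv (Out θ ψ) A) :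
    2 * Real.cos ψ / Real.cos (fa ψ) ≤ ‖A‖ := by
  obtain ⟨i, j, p, F, hp, hx, hF, hev⟩ := hA
  have hi : i = (1 : Fin 2) := by
    rcases fin_two i with h | h
    · exfalso
      rw [h, coord0] at hx
      have := congrArg (fun x : ℂ × ℂ => ‖x.1‖) hx
      simp only [norm_In, norm_Out] at this
      norm_num at this
    · exact h
  subst hi
  rw [coord1] at hx
  have hp2 : p.2 = ψ := Out_inj hp h1 hx
  have h2' : |2 * Real.sin p.2| < 1 := by rw [hp2]; exact h2
  have hev2 : ∀ᶠ p' in 𝓝 p, (F p').2 = -fa p'.2 := by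
    filter_upwards [hev, ev_good hp h2'] with p' h3 h4
    obtain ⟨h5, h6⟩ := h3
    rw [T_coord1 h4.1 h4.2] at h6
    rcases fin_two j with h | h
    · rw [h, coord0, coord0] at h6
      have h7 := In_inj (by rw [abs_neg, Fx, abs_neg]; exact fa_lt h4.2)
        (by rw [abs_neg]; exact h5) h6
      have h8 : (Fx p').2 = -fa p'.2 := rfl
      rw [h8] at h7
      linarith
    · exfalso
      rw [h, coord0, coord1] at h6
      have := congrArg (fun x : ℂ × ℂ => ‖x.1‖) h6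
      simp only [norm_In, norm_Out] at this
      norm_num at this
  have e1 : HasFDerivAt (fun p' => (F p').2) ((ContinuousLinearMap.snd ℝ ℝ ℝ).comp A) p :=
    hF.snd
  have e2 : HasFDerivAt (fun p' : ℝ × ℝ => -fa p'.2) ((ContinuousLinearMap.snd ℝ ℝ ℝ).comp A) p :=
    e1.congr_of_eventuallyEq (by
      filter_upwards [hev2] with p' h
      exact h.symm)
  have e3 : HasDerivAt (fun t : ℝ => ((p.1, t) : ℝ × ℝ)) (0, 1) p.2 :=
    (hasDerivAt_const p.2 p.1).prodMk (hasDerivAt_id p.2)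
  have e4 : HasDerivAt (fun t : ℝ => -fa t) (((ContinuousLinearMap.snd ℝ ℝ ℝ).comp A) (0, 1)) p.2 :=
    HasFDerivAt.comp_hasDerivAt (f := fun t : ℝ => ((p.1, t) : ℝ × ℝ)) p.2
      (l := fun p' : ℝ × ℝ => -fa p'.2) e2 e3
  have e5 := (hasDerivAt_fa h2').neg
  have e6 := e4.unique e5
  have e7 : (A (0, 1)).2 = -(2 * Real.cos ψ / Real.cos (fa ψ)) := by
    rw [← hp2]
    exact e6
  have e8 : ‖A (0, 1)‖ ≤ ‖A‖ * ‖((0, 1) : ℝ × ℝ)‖ := A.le_opNorm _
  have e9 : ‖((0, 1) : ℝ × ℝ)‖ = 1 := by simp [Prod.norm_def]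
  have e10 : |(A (0, 1)).2| ≤ ‖A (0, 1)‖ := by
    rw [← Real.norm_eq_abs]
    exact norm_snd_le _
  rw [e9, mul_one] at e8
  rw [e7, abs_neg] at e10
  exact (le_abs_self _).trans (e10.trans e8)

theorem two_sin_ps {u : ℝ} (hu : u ∈ Ioo (0 : ℝ) 1) : |2 * Real.sin (ps u)| < 1 := by
  rw [sin_ps hu]
  obtain ⟨h1, h2⟩ := hh_mem hu
  rw [abs_lt]
  constructor <;> linarith

theorem fa_ps {u : ℝ} (hu : u ∈ Ioo (0 : ℝ) 1) : fa (ps u) = ph u := by
  unfold fa ph
  rw [sin_ps hu]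
  congr 1
  ring

theorem normDT_bound {θ u : ℝ} (hu : u ∈ Ioo (0 : ℝ) 1) :
    1 / (2 * u) - 1 / 2 ≤ Real.log (ann.normDT (Out θ (ps u))) := by
  have hex := isDeriv_out (θ := θ) (ps_lt hu) (two_sin_ps hu)
  have h1 : 2 * Real.cos (ps u) / Real.cos (ph u) ≤ ann.normDT (Out θ (ps u)) := by
    unfold Table.normDT
    rw [dif_pos hex, ← fa_ps hu]
    exact deriv_bound (ps_lt hu) (two_sin_ps hu) hex.choose_spec
  obtain ⟨c1, c2, c3, c4⟩ := cos_ineq (ph_lt hu) (ps_lt hu) (sin_rel hu)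
  have h2 : 1 / Real.cos (ph u) ≤ 2 * Real.cos (ps u) / Real.cos (ph u) := by
    apply div_le_div_of_nonneg_right _ c1.le
    nlinarith
  have h3 : 0 < 1 / Real.cos (ph u) := by positivity
  have h4 : Real.log (1 / Real.cos (ph u)) ≤ Real.log (ann.normDT (Out θ (ps u))) :=
    Real.log_le_log h3 (h2.trans h1)
  refine le_trans ?_ h4
  have h5 : Real.cos (ph u) ^ 2 ≤ 2 * Real.exp (-(1 / u)) := by
    have e1 := Real.sin_sq_add_cos_sq (ph u)
    rw [sin_ph hu] at e1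
    have e2 : hh u = 1 - Real.exp (-(1 / u)) := rfl
    rw [e2] at e1
    have := Real.exp_pos (-(1 / u))
    nlinarith
  have h6 : Real.log (Real.cos (ph u) ^ 2) ≤ Real.log (2 * Real.exp (-(1 / u))) :=
    Real.log_le_log (by positivity) h5
  rw [Real.log_pow, Real.log_mul (by norm_num) (Real.exp_pos _).ne', Real.log_exp] at h6
  have h7 : Real.log 2 ≤ 1 := by
    have := Real.log_two_lt_d9
    linarith
  rw [Real.log_div (by norm_num) c1.ne', Real.log_one]
  push_cast at h6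
  have h8 : 1 / (2 * u) = (1 / u) / 2 := by
    have := hu.1.ne'
    field_simp
  rw [h8]
  linarith

/-- the one-dimensional integral diverges -/
theorem lint_inv : ∫⁻ u in Ioo (0 : ℝ) 1, ENNReal.ofReal (1 / (2 * u) - 1 / 2) = ⊤ := by
  by_contra hne
  have hlt : ∫⁻ u in Ioo (0 : ℝ) 1, ENNReal.ofReal (1 / (2 * u) - 1 / 2) < ⊤ :=
    lt_top_iff_ne_top.2 hne
  have hm : Measurable fun u : ℝ => 1 / (2 * u) - 1 / 2 := by fun_prop
  have hi : IntegrableOn (fun u : ℝ => 1 / (2 * u) - 1 / 2) (Ioo 0 1) := by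
    refine ⟨hm.aestronglyMeasurable, ?_⟩
    rw [hasFiniteIntegral_iff_ofReal]
    · exact hlt
    · rw [Filter.EventuallyLE, ae_restrict_iff' measurableSet_Ioo]
      refine Eventually.of_forall fun u hu => ?_
      show 0 ≤ 1 / (2 * u) - 1 / 2
      have : 1 / 2 ≤ 1 / (2 * u) := by
        apply one_div_le_one_div_of_le
        · linarith [hu.1]
        · linarith [hu.2]
      linarith
  have hc : IntegrableOn (fun _ : ℝ => (1 / 2 : ℝ)) (Ioo (0 : ℝ) 1) :=
    (continuous_const.integrableOn_Icc (a := 0) (b := 1)).mono_set Ioo_subset_Icc_self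
  have h3 : IntegrableOn (fun u : ℝ => u⁻¹) (Ioo (0 : ℝ) 1) := by
    have h4 := (hi.add hc).const_mul 2
    refine h4.congr ?_
    rw [Filter.EventuallyEq, ae_restrict_iff' measurableSet_Ioo]
    refine Eventually.of_forall fun u hu => ?_
    have := hu.1.ne'
    show 2 * (1 / (2 * u) - 1 / 2 + 1 / 2) = u⁻¹
    field_simp
    ring
  have h5 : IntervalIntegrable (fun u : ℝ => u⁻¹) volume 0 1 := by
    rw [intervalIntegrable_iff_integrableOn_Ioo_of_le (by norm_num)]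
    exact h3
  rw [intervalIntegrable_inv_iff] at h5
  rcases h5 with h | h
  · norm_num at h
  · apply h
    simp

theorem lint_dom : ∫⁻ p in dom, ENNReal.ofReal (1 / (2 * p.2) - 1 / 2) = ⊤ := by
  have hr : (volume.restrict dom : Measure (ℝ × ℝ)) =
      (volume.restrict (Ioc 0 (2 * Real.pi))).prod (volume.restrict (Ioo (0 : ℝ) 1)) := by
    unfold dom
    rw [Measure.prod_restrict, ← Measure.volume_eq_prod]
  rw [hr]
  have hm : Measurable fun p : ℝ × ℝ => ENNReal.ofReal (1 / (2 * p.2) - 1 / 2) := by fun_prop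
  rw [lintegral_prod _ hm.aemeasurable]
  simp only [lint_inv]
  rw [lintegral_const, Measure.restrict_apply_univ, Real.volume_Ioc]
  apply ENNReal.top_mul
  rw [sub_zero, Ne, ENNReal.ofReal_eq_zero]
  have := Real.pi_pos
  linarith

theorem lint_mu : ∫⁻ x, ENNReal.ofReal (max 0 (Real.log (ann.normDT x))) ∂mu = ⊤ := by
  unfold mu
  rw [lintegral_smul_measure, lintegral_add_measure, emb_O.lintegral_map]
  have h1 : (⊤ : ENNReal) ≤
      ∫⁻ p : dom, ENNReal.ofReal (max 0 (Real.log (ann.normDT (cO p.1)))) ∂mus := by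
    have h2 : ∫⁻ p : dom, ENNReal.ofReal (1 / (2 * p.1.2) - 1 / 2) ∂mus = ⊤ := by
      have h3 := lintegral_subtype_comap (μ := (volume : Measure (ℝ × ℝ))) measurableSet_dom
        (fun p => ENNReal.ofReal (1 / (2 * p.2) - 1 / 2))
      rw [lint_dom] at h3
      exact h3
    rw [← h2]
    apply lintegral_mono
    intro p
    apply ENNReal.ofReal_le_ofReal
    exact (normDT_bound p.2.2).trans (le_max_right _ _)
  rw [top_le_iff.1 h1]
  rw [add_top, smul_eq_mul]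
  apply ENNReal.mul_top
  rw [Ne, ENNReal.ofReal_eq_zero]
  have := Real.pi_pos
  have h : 0 < 1 / (4 * Real.pi) := by positivity
  linarith

theorem not_oseledets : ¬ ann.OseledetsIntegrable mu := by
  rintro ⟨h1, _⟩
  rw [lint_mu] at h1
  exact lt_irrefl _ h1

end Pool.Agent.H735R2.Osel
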