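import Mathlib
import Pool.Agent.H735R2.OselDer

set_option autoImplicit false

open Set Filter Topology MeasureTheory Complex ComplexConjugate

namespace Pool.Agent.H735R2.Osel

/-- the measure `cos φ dr dφ` on a coordinate rectangle -/
noncomputable def rho (a : ℝ) : Measure (ℝ × ℝ) :=
  ((volume : Measure (ℝ × ℝ)).withDensity fun p => ENNReal.ofReal (Real.cos p.2)).restrict
    (Ico 0 a ×ˢ Ioo (-(Real.pi / 2)) (Real.pi / 2))

theorem ac_aux (a : ℝ) (κ κ' : ℝ × ℝ → ℝ × ℝ) (W : Set (ℝ × ℝ)) (hκ : Measurable κ)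
    (hd : DifferentiableOn ℝ κ' W)
    (hgood : ∀ᵐ p ∂(volume.restrict dom : Measure (ℝ × ℝ)),
      κ p ∈ W ∧ κ p ∈ Ico 0 a ×ˢ Ioo (-(Real.pi / 2)) (Real.pi / 2) ∧ κ' (κ p) = p) :
    (volume.restrict dom : Measure (ℝ × ℝ)).map κ ≪ rho a := by
  refine Measure.AbsolutelyContinuous.mk fun N hN h0 => ?_
  have hR : MeasurableSet (Ico (0 : ℝ) a ×ˢ Ioo (-(Real.pi / 2)) (Real.pi / 2)) :=
    measurableSet_Ico.prod measurableSet_Ioo
  have hf : Measurable fun p : ℝ × ℝ => ENNReal.ofReal (Real.cos p.2) := by fun_prop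
  unfold rho at h0
  rw [Measure.restrict_apply hN, withDensity_apply_eq_zero hf] at h0
  have h1 : (volume : Measure (ℝ × ℝ))
      (N ∩ Ico (0 : ℝ) a ×ˢ Ioo (-(Real.pi / 2)) (Real.pi / 2)) = 0 := by
    refine measure_mono_null ?_ h0
    rintro p ⟨h2, h3⟩
    refine ⟨?_, h2, h3⟩
    show ENNReal.ofReal (Real.cos p.2) ≠ 0
    have := Real.cos_pos_of_mem_Ioo h3.2
    rw [Ne, ENNReal.ofReal_eq_zero]
    linarith
  have h2 : (volume : Measure (ℝ × ℝ))
      (κ' '' ((N ∩ Ico (0 : ℝ) a ×ˢ Ioo (-(Real.pi / 2)) (Real.pi / 2)) ∩ W)) = 0 := by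
    apply addHaar_image_eq_zero_of_differentiableOn_of_addHaar_eq_zero
    · exact hd.mono inter_subset_right
    · exact measure_mono_null inter_subset_left h1
  rw [Measure.map_apply hκ hN]
  have h3 : ∀ᵐ p ∂(volume.restrict dom : Measure (ℝ × ℝ)), p ∉ κ ⁻¹' N := by
    have h4 : ∀ᵐ p ∂(volume.restrict dom : Measure (ℝ × ℝ)),
        p ∉ κ' '' ((N ∩ Ico (0 : ℝ) a ×ˢ Ioo (-(Real.pi / 2)) (Real.pi / 2)) ∩ W) := by
      apply ae_restrict_of_ae
      exact measure_eq_zero_iff_ae_notMem.1 h2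
    filter_upwards [h4, hgood] with p h5 h6 h7
    exact h5 ⟨κ p, ⟨⟨h7, h6.2.1⟩, h6.1⟩, h6.2.2⟩
  exact measure_eq_zero_iff_ae_notMem.2 h3

/-- the inverse function of `hh` -/
noncomputable def gi (x : ℝ) : ℝ := -1 / Real.log (1 - x)

theorem gi_hh {u : ℝ} (hu : u ∈ Ioo (0 : ℝ) 1) : gi (hh u) = u := by
  unfold gi hh
  have h1 : 1 - (1 - Real.exp (-(1 / u))) = Real.exp (-(1 / u)) := by ring
  rw [h1, Real.log_exp]
  have := hu.1.ne'
  field_simp

theorem gi_diff {x : ℝ} (hx : x ∈ Ioo (0 : ℝ) 1) : DifferentiableAt ℝ gi x := by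
  unfold gi
  have h1 : (1 - x) ≠ 0 := by linarith [hx.2]
  have h2 : Real.log (1 - x) ≠ 0 := by
    apply Real.log_ne_zero_of_pos_of_ne_one
    · linarith [hx.2]
    · linarith [hx.1]
  have h3 : DifferentiableAt ℝ (fun x : ℝ => Real.log (1 - x)) x := by
    apply DifferentiableAt.log _ h1
    fun_prop
  exact (differentiableAt_const _).div h3 h2

theorem ac_I : (volume.restrict dom : Measure (ℝ × ℝ)).map
    (fun p => (2 * Real.pi - p.1, -ph p.2)) ≪ rho (2 * Real.pi) := by
  apply ac_aux (2 * Real.pi) _ (fun p => (2 * Real.pi - p.1, gi (Real.sin (-p.2))))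
    {p | Real.sin (-p.2) ∈ Ioo (0 : ℝ) 1}
  · apply Measurable.prodMk
    · fun_prop
    · exact (measurable_ph.comp measurable_snd).neg
  · intro p hp
    apply DifferentiableAt.differentiableWithinAt
    have h1 : DifferentiableAt ℝ (fun q : ℝ × ℝ => Real.sin (-q.2)) p := by fun_prop
    have h2 : DifferentiableAt ℝ (fun q : ℝ × ℝ => gi (Real.sin (-q.2))) p :=
      DifferentiableAt.comp p (g := gi) (f := fun q : ℝ × ℝ => Real.sin (-q.2)) (gi_diff hp) h1
    have h3 : DifferentiableAt ℝ (fun q : ℝ × ℝ => 2 * Real.pi - q.1) p := by fun_prop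
    exact h3.prodMk h2
  · rw [ae_restrict_iff' measurableSet_dom]
    refine Eventually.of_forall ?_
    rintro ⟨θ, u⟩ ⟨hθ, hu⟩
    simp only at hθ hu
    have h1 := ph_lt hu
    have h2 := sin_ph hu
    have h3 := hh_mem hu
    refine ⟨?_, ⟨?_, ?_⟩, ?_⟩
    · show Real.sin (- -ph u) ∈ Ioo (0 : ℝ) 1
      rw [neg_neg, h2]
      exact h3
    · show 2 * Real.pi - θ ∈ Ico 0 (2 * Real.pi)
      exact ⟨by linarith [hθ.2], by linarith [hθ.1]⟩
    · show -ph u ∈ Ioo (-(Real.pi / 2)) (Real.pi / 2)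
      rw [abs_lt] at h1
      exact ⟨by linarith [h1.2], by linarith [h1.1]⟩
    · show (2 * Real.pi - (2 * Real.pi - θ), gi (Real.sin (- -ph u))) = (θ, u)
      rw [neg_neg, h2, gi_hh hu]
      simp

theorem ac_O : (volume.restrict dom : Measure (ℝ × ℝ)).map
    (fun p => (2 * p.1, ps p.2)) ≪ rho (4 * Real.pi) := by
  apply ac_aux (4 * Real.pi) _ (fun p => (p.1 / 2, gi (2 * Real.sin p.2)))
    {p | 2 * Real.sin p.2 ∈ Ioo (0 : ℝ) 1}
  · apply Measurable.prodMk
    · fun_prop
    · exact measurable_ps.comp measurable_snd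
  · intro p hp
    apply DifferentiableAt.differentiableWithinAt
    have h1 : DifferentiableAt ℝ (fun q : ℝ × ℝ => 2 * Real.sin q.2) p := by fun_prop
    have h2 : DifferentiableAt ℝ (fun q : ℝ × ℝ => gi (2 * Real.sin q.2)) p :=
      DifferentiableAt.comp p (g := gi) (f := fun q : ℝ × ℝ => 2 * Real.sin q.2) (gi_diff hp) h1
    have h3 : DifferentiableAt ℝ (fun q : ℝ × ℝ => q.1 / 2) p := by fun_prop
    exact h3.prodMk h2
  · rw [ae_restrict_iff' measurableSet_dom]
    have hnull : (volume : Measure (ℝ × ℝ)) ({2 * Real.pi} ×ˢ univ) = 0 := by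
      rw [Measure.volume_eq_prod, Measure.prod_prod]
      simp
    have hae : ∀ᵐ p : ℝ × ℝ, p.1 ≠ 2 * Real.pi := by
      rw [ae_iff]
      refine measure_mono_null ?_ hnull
      intro p hp
      simp only [ne_eq, not_not] at hp
      exact ⟨hp, mem_univ _⟩
    filter_upwards [hae]
    rintro ⟨θ, u⟩ hne ⟨hθ, hu⟩
    simp only at hθ hu hne
    have h1 := ps_lt hu
    have h2 := sin_ps hu
    have h3 := hh_mem hu
    have h4 : 2 * Real.sin (ps u) = hh u := by
      rw [h2]
      ring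
    refine ⟨?_, ⟨?_, ?_⟩, ?_⟩
    · show 2 * Real.sin (ps u) ∈ Ioo (0 : ℝ) 1
      rw [h4]
      exact h3
    · show 2 * θ ∈ Ico 0 (4 * Real.pi)
      have := lt_of_le_of_ne hθ.2 hne
      exact ⟨by linarith [hθ.1], by linarith⟩
    · show ps u ∈ Ioo (-(Real.pi / 2)) (Real.pi / 2)
      exact abs_lt.1 h1
    · show (2 * θ / 2, gi (2 * Real.sin (ps u))) = (θ, u)
      rw [h4, gi_hh hu]
      simp

theorem measurable_coord0 : Measurable (ann.coord (0 : Fin 2)) := by
  have h1 : ann.coord (0 : Fin 2) = fun p => In (-p.1) (-p.2) := funext coord0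
  rw [h1]
  unfold In
  have := continuous_ex
  exact Continuous.measurable (by fun_prop)

theorem measurable_coord1 : Measurable (ann.coord (1 : Fin 2)) := by
  have h1 : ann.coord (1 : Fin 2) = fun p => Out (p.1 / 2) p.2 := funext coord1
  rw [h1]
  unfold Out
  have := continuous_ex
  exact Continuous.measurable (by fun_prop)

theorem mu_ac : mu ≪ ann.liouville := by
  have hI : mus.map (fun p : dom => cI p.1) ≪ ann.liouville := by
    have e1 : (fun p : dom => cI p.1) = ann.coord (0 : Fin 2) ∘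
        ((fun p : ℝ × ℝ => (2 * Real.pi - p.1, -ph p.2)) ∘ Subtype.val) := by
      funext p
      show cI p.1 = ann.coord (0 : Fin 2) (2 * Real.pi - p.1.1, -ph p.1.2)
      rw [coord0]
      have h2 := cI_per (p.1.1 - 2 * Real.pi, p.1.2)
      show cI p.1 = In (-(2 * Real.pi - p.1.1)) (- -ph p.1.2)
      rw [neg_neg, neg_sub]
      have h3 : ((p.1.1 - 2 * Real.pi, p.1.2) : ℝ × ℝ).1 + 2 * Real.pi = p.1.1 := by
        show p.1.1 - 2 * Real.pi + 2 * Real.pi = p.1.1
        ring
      rw [h3] at h2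
      exact h2
    have m1 : Measurable (fun p : ℝ × ℝ => (2 * Real.pi - p.1, -ph p.2)) := by
      apply Measurable.prodMk
      · fun_prop
      · exact (measurable_ph.comp measurable_snd).neg
    rw [e1, ← Measure.map_map measurable_coord0 (m1.comp measurable_subtype_coe),
      ← Measure.map_map m1 measurable_subtype_coe, map_mus]
    unfold Table.liouville
    apply Measure.absolutelyContinuous_sum_right (0 : Fin 2)
    exact ac_I.map measurable_coord0
  have hO : mus.map (fun p : dom => cO p.1) ≪ ann.liouville := by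
    have e1 : (fun p : dom => cO p.1) = ann.coord (1 : Fin 2) ∘
        ((fun p : ℝ × ℝ => (2 * p.1, ps p.2)) ∘ Subtype.val) := by
      funext p
      show cO p.1 = ann.coord (1 : Fin 2) (2 * p.1.1, ps p.1.2)
      rw [coord1]
      show cO p.1 = Out (2 * p.1.1 / 2) (ps p.1.2)
      have h3 : 2 * p.1.1 / 2 = p.1.1 := by ring
      rw [h3]
      rfl
    have m1 : Measurable (fun p : ℝ × ℝ => (2 * p.1, ps p.2)) := by
      apply Measurable.prodMk
      · fun_prop
      · exact measurable_ps.comp measurable_snd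
    rw [e1, ← Measure.map_map measurable_coord1 (m1.comp measurable_subtype_coe),
      ← Measure.map_map m1 measurable_subtype_coe, map_mus]
    unfold Table.liouville
    apply Measure.absolutelyContinuous_sum_right (1 : Fin 2)
    exact ac_O.map measurable_coord1
  intro s hs
  unfold mu
  rw [Measure.smul_apply, Measure.add_apply, hI hs, hO hs]
  simp

end Pool.Agent.H735R2.Osel
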