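import Mathlib
import Pool.Agent.H735R2.OselAc

set_option autoImplicit false

open Set Filter Topology MeasureTheory Complex ComplexConjugate

namespace Pool.Agent.H735R2.Osel

namespace Table

variable (B : Table)

/-- The coordinates of a non-tangential state are unique up to the period of the boundary curve. -/
theorem coord_inj {i j : Fin B.m} {p q : ℝ × ℝ} (hp : |p.2| < Real.pi / 2)
    (hq : |q.2| < Real.pi / 2) (h : B.coord i p = B.coord j q) :
    i = j ∧ ∃ k : ℤ, q = (p.1 + k * B.L i, p.2) := by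
  unfold coord at h
  simp only [Prod.mk.injEq] at h
  obtain ⟨h1, h2⟩ := h
  obtain ⟨h3, k, hk⟩ := B.simple i j p.1 q.1 h1
  subst h3
  refine ⟨rfl, k, ?_⟩
  have hd := (B.deriv_periodic i p.1 k).2
  unfold normal at h2
  rw [hk, hd] at h2
  have hne : deriv (B.γ i) p.1 ≠ 0 := by
    intro h0
    have := B.unit i p.1
    rw [h0, norm_zero] at this
    norm_num at this
  have h4 : ((Real.cos p.2 : ℂ) * I + Real.sin p.2) = ((Real.cos q.2 : ℂ) * I + Real.sin q.2) := by
    apply mul_right_cancel₀ hne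
    linear_combination h2
  have h5 : ex p.2 = ex q.2 := by
    have h6 := congrArg conj h4
    rw [ex_eq, ex_eq]
    simp only [map_add, map_mul, conj_ofReal, conj_I] at h6
    have := I_mul_I
    linear_combination I * h6 - (-(Real.cos p.2 : ℂ) + Real.cos q.2) * this
  have h7 := ex_inj_small hp hq h5
  exact Prod.ext hk h7.symm

/-- The derivative of the billiard map in the coordinates `(r, φ)` is unique. -/
theorem IsDeriv.unique {x : ℂ × ℂ} {A A' : (ℝ × ℝ) →L[ℝ] (ℝ × ℝ)} (hA : B.IsDeriv x A)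
    (hA' : B.IsDeriv x A') : A = A' := by
  obtain ⟨i, j, p, F, hp, hx, hF, hev⟩ := hA
  obtain ⟨i', j', p', F', hp', hx', hF', hev'⟩ := hA'
  obtain ⟨h1, k, hk⟩ := B.coord_inj hp hp' (hx.trans hx'.symm)
  subst h1
  obtain ⟨c, hc⟩ : ∃ c : ℝ × ℝ, c = (k * B.L i, 0) := ⟨_, rfl⟩
  have hpc : p' = p + c := by
    rw [hk, hc]
    exact Prod.ext rfl (by simp)
  have hcoord : ∀ q : ℝ × ℝ, B.coord i (q + c) = B.coord i q := by
    intro q
    have h2 : q + c = (q.1 + k * B.L i, q.2) := by
      rw [hc]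
      exact Prod.ext rfl (by simp)
    rw [h2]
    unfold coord normal
    simp only
    rw [(B.deriv_periodic i q.1 k).1, (B.deriv_periodic i q.1 k).2]
  have ht : Tendsto (fun q : ℝ × ℝ => q + c) (𝓝 p) (𝓝 p') := by
    rw [hpc]
    exact (continuous_id.add continuous_const).tendsto p
  have hev2 : ∀ᶠ q in 𝓝 p, j = j' ∧ ∃ m : ℤ, F' (q + c) = ((F q).1 + m * B.L j, (F q).2) := by
    filter_upwards [hev, ht.eventually hev'] with q h2 h3
    obtain ⟨h4, h5⟩ := h2
    obtain ⟨h6, h7⟩ := h3
    rw [hcoord] at h7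
    exact B.coord_inj h4 h6 (h5.symm.trans h7)
  have hjj : j = j' := hev2.self_of_nhds.1
  subst hjj
  have hF'c : HasFDerivAt (fun q => F' (q + c)) A' p := by
    have h8 : HasFDerivAt (fun q : ℝ × ℝ => q + c) (ContinuousLinearMap.id ℝ (ℝ × ℝ)) p :=
      (hasFDerivAt_id p).add_const c
    rw [hpc] at hF'
    have h9 := hF'.comp p h8
    rw [ContinuousLinearMap.comp_id] at h9
    exact h9
  obtain ⟨D, hD⟩ : ∃ D : ℝ × ℝ → ℝ, D = fun q => (F' (q + c)).1 - (F q).1 := ⟨_, rfl⟩
  have hDc : ContinuousAt D p := by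
    rw [hD]
    exact (continuous_fst.continuousAt.comp hF'c.continuousAt).sub
      (continuous_fst.continuousAt.comp hF.continuousAt)
  have hL := B.L_pos j
  have hclose : ∀ᶠ q in 𝓝 p, |D q - D p| < B.L j := by
    have := hDc.eventually (Metric.ball_mem_nhds (D p) hL)
    filter_upwards [this] with q hq
    rw [← Real.dist_eq]
    exact hq
  obtain ⟨m0, hm0⟩ := hev2.self_of_nhds.2
  have hDp : D p = m0 * B.L j := by
    rw [hD]
    show (F' (p + c)).1 - (F p).1 = _
    rw [hm0]
    ring
  have hev3 : ∀ᶠ q in 𝓝 p, F' (q + c) = F q + (m0 * B.L j, 0) := by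
    filter_upwards [hev2, hclose] with q h2 h3
    obtain ⟨m, hm⟩ := h2.2
    have hDq : D q = m * B.L j := by
      rw [hD]
      show (F' (q + c)).1 - (F q).1 = _
      rw [hm]
      ring
    have hmm : m = m0 := by
      rw [hDq, hDp, ← sub_mul, abs_mul, abs_of_pos hL] at h3
      have h4 : |(m : ℝ) - m0| < 1 := by
        by_contra hcon
        push Not at hcon
        have := mul_le_mul_of_nonneg_right hcon hL.le
        linarith
      have h5 : |m - m0| < 1 := by exact_mod_cast h4
      have h6 : m - m0 = 0 := Int.abs_lt_one_iff.1 h5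
      linarith
    rw [hm, hmm]
    exact Prod.ext rfl (by simp)
  have h10 : HasFDerivAt (fun q => F q + (m0 * B.L j, 0)) A p := hF.add_const _
  exact (h10.congr_of_eventuallyEq hev3).unique hF'c

end Table

end Pool.Agent.H735R2.Osel
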