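import Mathlib
import Pool.Agent.H735R2.OselUniq

set_option autoImplicit false

open Set Filter Topology MeasureTheory Complex ComplexConjugate

namespace Pool.Agent.H735R2.Osel

/-- the angle on the outer circle as a function of the angle on the inner circle -/
noncomputable def fb (φ : ℝ) : ℝ := Real.arcsin (Real.sin φ / 2)

theorem half_sin (φ : ℝ) : |Real.sin φ / 2| < 1 := by
  have h1 := Real.neg_one_le_sin φ
  have h2 := Real.sin_le_one φ
  rw [abs_lt]
  constructor <;> linarith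

theorem fb_lt (φ : ℝ) : |fb φ| < Real.pi / 2 := by
  have h := abs_lt.1 (half_sin φ)
  rw [abs_lt]
  exact ⟨Real.neg_pi_div_two_lt_arcsin.2 h.1, Real.arcsin_lt_pi_div_two.2 h.2⟩

theorem sin_fb (φ : ℝ) : Real.sin φ = 2 * Real.sin (fb φ) := by
  have h := abs_lt.1 (half_sin φ)
  unfold fb
  rw [Real.sin_arcsin h.1.le h.2.le]
  ring

/-- the billiard map in coordinates, from the inner to the outer circle -/
noncomputable def Fy (p : ℝ × ℝ) : ℝ × ℝ := (2 * (-p.1 + (-p.2 - fb (-p.2))), fb (-p.2))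

theorem T_coord0 {p : ℝ × ℝ} (h1 : |p.2| < Real.pi / 2) :
    ann.T (ann.coord (0 : Fin 2) p) = ann.coord (1 : Fin 2) (Fy p) := by
  have h2 : |-p.2| < Real.pi / 2 := by rwa [abs_neg]
  rw [coord0, coord1, T_in h2 (fb_lt (-p.2)) (sin_fb (-p.2))]
  simp only [Fy]
  congr 1
  ring

theorem isDeriv_in {θ φ : ℝ} (h1 : |φ| < Real.pi / 2) : ∃ A, ann.IsDeriv (In θ φ) A := by
  have hd : DifferentiableAt ℝ Fy (-θ, -φ) := by
    have h := abs_lt.1 (half_sin (- -φ))
    have d0 : DifferentiableAt ℝ Real.arcsin (Real.sin (- -φ) / 2) :=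
      (Real.hasDerivAt_arcsin (by linarith) (by linarith)).differentiableAt
    have d1 : DifferentiableAt ℝ (fun p : ℝ × ℝ => Real.sin (-p.2) / 2) (-θ, -φ) := by fun_prop
    have d2 : DifferentiableAt ℝ (fun p : ℝ × ℝ => fb (-p.2)) (-θ, -φ) :=
      DifferentiableAt.comp (-θ, -φ) (g := Real.arcsin)
        (f := fun p : ℝ × ℝ => Real.sin (-p.2) / 2) d0 d1
    unfold Fy
    have d3 : DifferentiableAt ℝ (fun p : ℝ × ℝ => 2 * (-p.1 + (-p.2 - fb (-p.2)))) (-θ, -φ) := by
      apply DifferentiableAt.const_mul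
      apply DifferentiableAt.add
      · fun_prop
      · apply DifferentiableAt.sub
        · fun_prop
        · exact d2
    exact d3.prodMk d2
  refine ⟨fderiv ℝ Fy (-θ, -φ), (0 : Fin 2), (1 : Fin 2), (-θ, -φ), Fy, by rwa [abs_neg], ?_,
    hd.hasFDerivAt, ?_⟩
  · rw [coord0]
    simp
  · have c1 : Continuous fun p' : ℝ × ℝ => |p'.2| := by fun_prop
    have h3 : ∀ᶠ p' : ℝ × ℝ in 𝓝 (-θ, -φ), |p'.2| < Real.pi / 2 :=
      c1.continuousAt.eventually_lt_const (show |-φ| < Real.pi / 2 by rwa [abs_neg])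
    filter_upwards [h3] with p' hp'
    exact ⟨fb_lt _, T_coord0 hp'⟩

theorem mu_deriv : ∀ᵐ x ∂mu, ∃! A, ann.IsDeriv x A := by
  apply mu_ae
  · refine Eventually.of_forall fun p => ?_
    obtain ⟨A, hA⟩ := isDeriv_in (θ := p.1.1) (ph_lt p.2.2)
    exact ⟨A, hA, fun A' hA' => Table.IsDeriv.unique ann hA' hA⟩
  · refine Eventually.of_forall fun p => ?_
    obtain ⟨A, hA⟩ := isDeriv_out (θ := p.1.1) (ps_lt p.2.2) (two_sin_ps p.2.2)
    exact ⟨A, hA, fun A' hA' => Table.IsDeriv.unique ann hA' hA⟩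

end Pool.Agent.H735R2.Osel
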